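import Pool.Agent.Lib.MP_a2be38_co_h69.Pos

/-!
# Blocks with a positive coefficient
-/

set_option autoImplicit false

open Finset PowerSeries

namespace Pool.Agent.A2B69

/-- alternating binomial power sums -/
noncomputable def altS (m j : ℕ) : ℝ :=
  ∑ i ∈ Finset.range (m + 1), (-1) ^ (m + i) * (m.choose i : ℝ) * (i : ℝ) ^ j

theorem altS_zero (m : ℕ) : altS m 0 = if m = 0 then 1 else 0 := by
  have h1 : altS m 0 = (-1) ^ m * ∑ i ∈ Finset.range (m + 1), (-1 : ℝ) ^ i * (m.choose i : ℝ) := by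
    rw [altS, Finset.mul_sum]
    refine Finset.sum_congr rfl fun i _ => ?_
    rw [pow_add]
    ring
  have h2 := Int.alternating_sum_range_choose (n := m)
  have h3 : (∑ i ∈ Finset.range (m + 1), (-1 : ℝ) ^ i * (m.choose i : ℝ)) =
      ((if m = 0 then 1 else 0 : ℤ) : ℝ) := by
    rw [← h2]
    push_cast
    rfl
  rw [h1, h3]
  split_ifs with h
  · subst h; simp
  · simp

theorem altS_zero_left (j : ℕ) : altS 0 j = if j = 0 then 1 else 0 := by
  rw [altS]
  simp
  rcases Nat.eq_zero_or_pos j with rfl | hj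
  · simp
  · rw [zero_pow hj.ne', if_neg hj.ne']

theorem altS_succ (m j : ℕ) : altS (m + 1) (j + 1) = ((m : ℝ) + 1) * (altS m j + altS (m + 1) j) := by
  have h1 : ∀ i ∈ Finset.range (m + 1 + 1), (-1 : ℝ) ^ (m + 1 + i) * ((m + 1).choose i : ℝ) *
      (i : ℝ) ^ (j + 1) = ((m : ℝ) + 1) * ((-1) ^ (m + 1 + i) * ((m + 1).choose i : ℝ) * (i : ℝ) ^ j)
        - ((m : ℝ) + 1) * ((-1) ^ (m + 1 + i) * (m.choose i : ℝ) * (i : ℝ) ^ j) := by
    intro i hi
    have hi' : i ≤ m + 1 := Nat.lt_succ_iff.mp (Finset.mem_range.mp hi)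
    have h2 := Nat.choose_mul_succ_eq m i
    have h3 : (m.choose i : ℝ) * ((m : ℝ) + 1) = ((m + 1).choose i : ℝ) * ((m : ℝ) + 1 - i) := by
      have := congrArg (Nat.cast (R := ℝ)) h2
      push_cast [Nat.cast_sub hi'] at this
      exact this
    have h4 : ((m + 1).choose i : ℝ) * (i : ℝ) = ((m : ℝ) + 1) * ((m + 1).choose i : ℝ) -
        ((m : ℝ) + 1) * (m.choose i : ℝ) := by
      rw [mul_comm ((m : ℝ) + 1) (m.choose i : ℝ), h3]
      ring
    calc (-1 : ℝ) ^ (m + 1 + i) * ((m + 1).choose i : ℝ) * (i : ℝ) ^ (j + 1)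
        = (-1) ^ (m + 1 + i) * (((m + 1).choose i : ℝ) * (i : ℝ)) * (i : ℝ) ^ j := by
          rw [pow_succ]; ring
      _ = _ := by rw [h4]; ring
  rw [altS, Finset.sum_congr rfl h1, Finset.sum_sub_distrib, ← Finset.mul_sum, ← Finset.mul_sum]
  have h2 : ∑ i ∈ Finset.range (m + 1 + 1), (-1 : ℝ) ^ (m + 1 + i) * (m.choose i : ℝ) * (i : ℝ) ^ j
      = - altS m j := by
    rw [Finset.sum_range_succ, Nat.choose_succ_self, altS, ← Finset.sum_neg_distrib]
    simp only [Nat.cast_zero, mul_zero, zero_mul, add_zero]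
    refine Finset.sum_congr rfl fun i _ => ?_
    rw [show m + 1 + i = (m + i) + 1 by ring, pow_succ]
    ring
  rw [h2]
  have h3 : ∑ i ∈ Finset.range (m + 1 + 1), (-1 : ℝ) ^ (m + 1 + i) * ((m + 1).choose i : ℝ) *
      (i : ℝ) ^ j = altS (m + 1) j := rfl
  rw [h3]
  ring

theorem altS_nonneg (j : ℕ) : ∀ m, 0 ≤ altS m j := by
  induction j with
  | zero => intro m; rw [altS_zero]; split_ifs <;> norm_num
  | succ j ih =>
    intro m
    rcases Nat.eq_zero_or_pos m with rfl | hm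
    · rw [altS_zero_left]; split_ifs <;> norm_num
    · obtain ⟨m, rfl⟩ := Nat.exists_eq_succ_of_ne_zero hm.ne'
      rw [Nat.succ_eq_add_one, altS_succ]
      have h1 := ih m
      have h2 := ih (m + 1)
      positivity

theorem altS_eq_zero (j : ℕ) : ∀ m, j < m → altS m j = 0 := by
  induction j with
  | zero => intro m hm; rw [altS_zero, if_neg hm.ne']
  | succ j ih =>
    intro m hm
    obtain ⟨m, rfl⟩ := Nat.exists_eq_succ_of_ne_zero (by omega : m ≠ 0)
    rw [Nat.succ_eq_add_one, altS_succ, ih m (by omega), ih (m + 1) (by omega)]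
    ring

theorem altS_self_pos (m : ℕ) : 0 < altS m m := by
  induction m with
  | zero => rw [altS_zero]; simp
  | succ m ih =>
    rw [altS_succ, altS_eq_zero m (m + 1) (by omega)]
    have : (0 : ℝ) < (m : ℝ) + 1 := by positivity
    rw [add_zero]
    exact mul_pos this ih

theorem altS_succ_pos (m : ℕ) (hm : 1 ≤ m) : 0 < altS m (m + 1) := by
  obtain ⟨m, rfl⟩ := Nat.exists_eq_succ_of_ne_zero (by omega : m ≠ 0)
  rw [Nat.succ_eq_add_one, altS_succ]
  have h1 := altS_nonneg (m + 1) m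
  have h2 := altS_self_pos (m + 1)
  have : (0 : ℝ) < (m : ℝ) + 1 := by positivity
  exact mul_pos this (by linarith)

/-- the general block -/
theorem block_coeff (J : Type) [Fintype J] [DecidableEq J] (u v : J → ℝ) (hu : ∀ j, 0 ≤ u j)
    (hv : ∀ j, 0 ≤ v j) (m : ℕ) (hm : 1 ≤ m)
    (hlow : ∀ j, j < m - 1 → ∑ i, u i ^ (j + 1) = ∑ i, v i ^ (j + 1))
    (ha : ∑ i, v i ^ m < ∑ i, u i ^ m) (hb : ∑ i, v i ^ (m + 1) < ∑ i, u i ^ (m + 1))
    (k : ℕ) (hk : k = 2 * m - 1 ∨ k = 2 * m) :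
    ∃ A : Law, 0 < coeff k (ld A.ser) := by
  set a := ∑ i, u i ^ m - ∑ i, v i ^ m with ha'
  set b := ∑ i, u i ^ (m + 1) - ∑ i, v i ^ (m + 1) with hb'
  have ha0 : 0 < a := by linarith
  have hb0 : 0 < b := by linarith
  set s := ∑ i, u i ^ (k + 1) + ∑ i, v i ^ (k + 1) with hs
  have hm0 : (0 : ℝ) < m := by exact_mod_cast hm
  set c : ℝ := if k = 2 * m - 1 then (2 * (m : ℝ))⁻¹ * (yc (m - 1) * a) ^ 2 else
    ((2 * (m : ℝ))⁻¹ + (2 * ((m : ℝ) + 1))⁻¹) * (yc (m - 1) * a * (yc m * b)) with hc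
  have hy1 := yc_pos (m - 1)
  have hy2 := yc_pos m
  have hc0 : 0 < c := by
    rw [hc]
    split_ifs <;> positivity
  obtain ⟨N₀, hN₀⟩ := exists_nat_gt (yc k * s / c)
  set N := N₀ + 1 with hN
  have hNpos : (0 : ℝ) < (N : ℝ) := by rw [hN]; positivity
  have hNc : yc k * s < N * c := by
    have h1 : yc k * s < N₀ * c := by rwa [div_lt_iff₀ hc0] at hN₀
    have h2 : (N₀ : ℝ) * c ≤ N * c := by
      apply mul_le_mul_of_nonneg_right _ hc0.le
      rw [hN]; push_cast; linarith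
    linarith
  refine ⟨Law.block (J × Fin N) (fun p => u p.1 / N) (fun p => v p.1 / N)
    (fun p => div_nonneg (hu p.1) hNpos.le) (fun p => div_nonneg (hv p.1) hNpos.le), ?_⟩
  rw [Law.ser_block]
  set P : PowerSeries ℝ := ∏ p : J × Fin N, rescale (u p.1 / N) cser with hP
  set Q : PowerSeries ℝ := ∏ p : J × Fin N, rescale (v p.1 / N) cser with hQ
  have hcP : constantCoeff P = 1 := const_prod _ _
  have hcQ : constantCoeff Q = 1 := const_prod _ _
  have hsum : ∀ (w : J → ℝ) (j : ℕ), ∑ p : J × Fin N, (w p.1 / N) ^ (j + 1) =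
      (∑ i, w i ^ (j + 1)) * ((N : ℝ) ^ j)⁻¹ := by
    intro w j
    rw [Fintype.sum_prod_type]
    simp only [Finset.sum_const, Finset.card_univ, Fintype.card_fin, nsmul_eq_mul]
    rw [Finset.sum_mul]
    refine Finset.sum_congr rfl fun i _ => ?_
    rw [div_pow, pow_succ (N : ℝ) j]
    have : (N : ℝ) ^ j ≠ 0 := pow_ne_zero _ hNpos.ne'
    field_simp
  have hldP : ∀ j, coeff j (ld P) = - yc j * ((∑ i, u i ^ (j + 1)) * ((N : ℝ) ^ j)⁻¹) := by
    intro j
    rw [hP, coeff_ld_prod, hsum]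
  have hldQ : ∀ j, coeff j (ld Q) = - yc j * ((∑ i, v i ^ (j + 1)) * ((N : ℝ) ^ j)⁻¹) := by
    intro j
    rw [hQ, coeff_ld_prod, hsum]
  obtain ⟨W, hW0, hW1, hW2⟩ := ld_mix P Q hcP hcQ
  have hδ : ∀ j, coeff j (ld P - ld Q) = - (yc j * (∑ i, u i ^ (j + 1) - ∑ i, v i ^ (j + 1)) *
      ((N : ℝ) ^ j)⁻¹) := by
    intro j
    rw [map_sub, hldP, hldQ]
    ring
  obtain ⟨hA, hB⟩ := coeff_Wδ hW0 hW1 hm (fun j hj => by rw [hδ, hlow j hj]; ring)
  have hmain : 2 * coeff k (ld (C (1 / 2) * (P + Q))) =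
      ((N : ℝ) ^ k)⁻¹ * (N * c - yc k * s) := by
    have h1 := congrArg (coeff k) hW2
    have h2 : coeff k (2 * ld (C (1 / 2) * (P + Q))) = 2 * coeff k (ld (C (1 / 2) * (P + Q))) := by
      rw [show (2 : PowerSeries ℝ) = C (2 : ℝ) from (map_ofNat C 2).symm, coeff_C_mul]
    rw [h2] at h1
    rw [h1, map_add, map_add, hldP, hldQ]
    have h3 : coeff k (W * (ld P - ld Q)) = ((N : ℝ) ^ k)⁻¹ * (N * c) := by
      rcases hk with hk | hk
      · rw [hk, hA, hδ, hc, if_pos hk, Nat.sub_add_cancel hm, ← ha']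
        obtain ⟨n, rfl⟩ := Nat.exists_eq_succ_of_ne_zero (by omega : m ≠ 0)
        have e1 : 2 * (n.succ) - 1 = n + n + 1 := by omega
        have e2 : n.succ - 1 = n := by omega
        rw [e1, e2, pow_succ, pow_add]
        have : (N : ℝ) ^ n ≠ 0 := pow_ne_zero _ hNpos.ne'
        field_simp
        ring
      · have hk' : ¬ (k = 2 * m - 1) := by omega
        rw [hk, hB, hδ, hδ, hc, if_neg hk', Nat.sub_add_cancel hm, ← ha', ← hb']
        obtain ⟨n, rfl⟩ := Nat.exists_eq_succ_of_ne_zero (by omega : m ≠ 0)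
        have e1 : 2 * (n.succ) = n + n + 1 + 1 := by omega
        have e2 : n.succ - 1 = n := by omega
        rw [e1, e2, Nat.succ_eq_add_one, pow_succ, pow_succ, pow_add, pow_succ]
        have : (N : ℝ) ^ n ≠ 0 := pow_ne_zero _ hNpos.ne'
        field_simp
        ring
    rw [h3, hs]
    ring
  have h5 : 0 < ((N : ℝ) ^ k)⁻¹ * (N * c - yc k * s) :=
    mul_pos (by positivity) (by linarith)
  linarith

/-- every coefficient of the logarithmic derivative except the first one can be positive -/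
theorem exists_pos (k : ℕ) (hk : 1 ≤ k) : ∃ A : Law, 0 < coeff k (ld A.ser) := by
  set m := (k + 1) / 2 with hm
  have hm1 : 1 ≤ m := by omega
  have hsumS : ∀ (g : Fin (m + 1) → ℝ) (j : ℕ),
      ∑ x : (Σ i : Fin (m + 1), Fin (m.choose i)), g x.1 ^ j =
        ∑ i : Fin (m + 1), (m.choose i : ℝ) * g i ^ j := by
    intro g j
    rw [Fintype.sum_sigma]
    refine Finset.sum_congr rfl fun i _ => ?_
    simp
  have hdiff : ∀ j, 1 ≤ j →
      ∑ i : Fin (m + 1), (m.choose i : ℝ) * (if Even (m + i) then ((i : ℕ) : ℝ) else 0) ^ j -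
      ∑ i : Fin (m + 1), (m.choose i : ℝ) * (if Even (m + i) then 0 else ((i : ℕ) : ℝ)) ^ j =
      altS m j := by
    intro j hj
    rw [← Finset.sum_sub_distrib, altS, Finset.sum_range]
    refine Finset.sum_congr rfl fun i _ => ?_
    by_cases h : Even (m + (i : ℕ))
    · rw [if_pos h, if_pos h, h.neg_one_pow, zero_pow (by omega)]
      ring
    · rw [if_neg h, if_neg h, (Nat.not_even_iff_odd.mp h).neg_one_pow, zero_pow (by omega)]
      ring
  refine block_coeff (Σ i : Fin (m + 1), Fin (m.choose i))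
    (fun x => if Even (m + x.1) then ((x.1 : ℕ) : ℝ) else 0)
    (fun x => if Even (m + x.1) then 0 else ((x.1 : ℕ) : ℝ)) ?_ ?_ m hm1 ?_ ?_ ?_ k (by omega)
  · intro x; split_ifs <;> simp
  · intro x; split_ifs <;> simp
  · intro j hj
    have h1 := hdiff (j + 1) (by omega)
    rw [altS_eq_zero (j + 1) m (by omega)] at h1
    have h2 := hsumS (fun i => if Even (m + i) then ((i : ℕ) : ℝ) else 0) (j + 1)
    have h3 := hsumS (fun i => if Even (m + i) then 0 else ((i : ℕ) : ℝ)) (j + 1)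
    linarith
  · have h1 := hdiff m hm1
    have h0 := altS_self_pos m
    have h2 := hsumS (fun i => if Even (m + i) then ((i : ℕ) : ℝ) else 0) m
    have h3 := hsumS (fun i => if Even (m + i) then 0 else ((i : ℕ) : ℝ)) m
    linarith
  · have h1 := hdiff (m + 1) (by omega)
    have h0 := altS_succ_pos m hm1
    have h2 := hsumS (fun i => if Even (m + i) then ((i : ℕ) : ℝ) else 0) (m + 1)
    have h3 := hsumS (fun i => if Even (m + i) then 0 else ((i : ℕ) : ℝ)) (m + 1)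
    linarith

end Pool.Agent.A2B69
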