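import Pool.Agent.Lib.MP_a2be38_co_h69.Block
import Pool.Agent.Lib.MP_a2be38_co.Design

/-!
# Designs from a law with Gaussian moments
-/

set_option autoImplicit false

open Finset PowerSeries

namespace Pool.Agent.A2B69

/-- the squared amplitude as an affine function of the bit -/
noncomputable def lin (A : Law) (j : A.J) (z : ℝ) : ℝ := (A.u j + A.v j) / 2 + (A.u j - A.v j) / 2 * z

theorem lin_nonneg (A : Law) (j : A.J) (z : ℝ) (hz : z ^ 2 = 1) : 0 ≤ lin A j z := by
  have h : (z - 1) * (z + 1) = 0 := by nlinarith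
  have hu := A.hu j
  have hv := A.hv j
  unfold lin
  rcases mul_eq_zero.mp h with h | h
  · have : z = 1 := by linarith
    rw [this]; linarith
  · have : z = -1 := by linarith
    rw [this]; linarith

section

variable (A : Law) {d : ℕ} (g : Fin d → ℝ) (t : ℕ)

/-- the polynomial in the bits -/
noncomputable def gpoly : MvPolynomial (Fin d × A.B) ℝ :=
  ∑ k ∈ piAntidiag (univ : Finset (Fin d × A.J)) t, ∏ p : Fin d × A.J,
    (MvPolynomial.C (coeff (k p) cser) * (MvPolynomial.C (g p.1 ^ 2) *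
      (MvPolynomial.C ((A.u p.2 + A.v p.2) / 2) + MvPolynomial.C ((A.u p.2 - A.v p.2) / 2) *
        MvPolynomial.X (p.1, A.β p.2))) ^ k p)

theorem gpoly_deg : (gpoly A g t).totalDegree ≤ t := by
  unfold gpoly
  refine MvPolynomial.totalDegree_finsetSum_le fun k hk => ?_
  refine (MvPolynomial.totalDegree_finsetProd _ _).trans ?_
  have hsum : ∑ p, k p = t := (mem_piAntidiag.mp hk).1
  rw [← hsum]
  refine Finset.sum_le_sum fun p _ => ?_
  refine (MvPolynomial.totalDegree_mul _ _).trans ?_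
  rw [MvPolynomial.totalDegree_C, zero_add]
  refine (MvPolynomial.totalDegree_pow _ _).trans ?_
  have h1 : (MvPolynomial.C (g p.1 ^ 2) *
      (MvPolynomial.C ((A.u p.2 + A.v p.2) / 2) + MvPolynomial.C ((A.u p.2 - A.v p.2) / 2) *
        MvPolynomial.X (p.1, A.β p.2)) : MvPolynomial (Fin d × A.B) ℝ).totalDegree ≤ 1 := by
    refine (MvPolynomial.totalDegree_mul _ _).trans ?_
    rw [MvPolynomial.totalDegree_C, zero_add]
    refine (MvPolynomial.totalDegree_add _ _).trans ?_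
    rw [MvPolynomial.totalDegree_C]
    refine max_le (Nat.zero_le _) ?_
    refine (MvPolynomial.totalDegree_mul _ _).trans ?_
    rw [MvPolynomial.totalDegree_C, zero_add, MvPolynomial.totalDegree_X]
  calc k p * _ ≤ k p * 1 := Nat.mul_le_mul_left _ h1
    _ = k p := mul_one _

theorem gpoly_eval (z : Fin d × A.B → ℝ) : MvPolynomial.eval z (gpoly A g t) =
    coeff t (∏ p : Fin d × A.J, rescale (g p.1 ^ 2 * lin A p.2 (z (p.1, A.β p.2))) cser) := by
  rw [coeff_prod_pi, gpoly, map_sum]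
  refine Finset.sum_congr rfl fun k _ => ?_
  rw [map_prod]
  refine Finset.prod_congr rfl fun p _ => ?_
  rw [coeff_rescale]
  simp only [map_mul, map_pow, map_add, MvPolynomial.eval_C, MvPolynomial.eval_X, lin]
  ring

/-- the average over the full cube -/
theorem cube_avg : ∑ ζ : Fin d × A.B → Bool, MvPolynomial.eval
      (fun i => if ζ i then (1 : ℝ) else -1) (gpoly A g t) =
    (Fintype.card (Fin d × A.B → Bool) : ℝ) * coeff t (∏ x, rescale (g x ^ 2) A.ser) := by
  simp_rw [gpoly_eval]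
  rw [← map_sum, ← Equiv.sum_comp (Equiv.curry (Fin d) A.B Bool).symm]
  have h1 : ∀ ζ : Fin d → A.B → Bool, (∏ p : Fin d × A.J, rescale (g p.1 ^ 2 * lin A p.2
      (if (Equiv.curry (Fin d) A.B Bool).symm ζ (p.1, A.β p.2) then 1 else -1)) cser) =
      ∏ x, ∏ j, rescale (g x ^ 2 * A.am (ζ x) j) cser := by
    intro ζ
    rw [Fintype.prod_prod_type]
    refine Finset.prod_congr rfl fun x _ => Finset.prod_congr rfl fun j _ => ?_
    have h2 : (Equiv.curry (Fin d) A.B Bool).symm ζ (x, A.β j) = ζ x (A.β j) := rfl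
    simp only [h2, lin, Law.am]
    congr 2
    congr 1
    split_ifs <;> ring
  simp_rw [h1]
  have h2 := (Finset.prod_univ_sum (fun _ : Fin d => (Finset.univ : Finset (A.B → Bool)))
      (fun x ξ => ∏ j, rescale (g x ^ 2 * A.am ξ j) cser)).symm
  rw [Fintype.piFinset_univ] at h2
  rw [h2]
  have h3 : ∀ x : Fin d, ∑ ξ : A.B → Bool, ∏ j, rescale (g x ^ 2 * A.am ξ j) cser =
      C (Fintype.card (A.B → Bool) : ℝ) * rescale (g x ^ 2) A.ser := by
    intro x
    have hc : (Fintype.card (A.B → Bool) : ℝ) ≠ 0 := by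
      have := Fintype.card_pos (α := A.B → Bool)
      positivity
    have h4 : A.ser = C ((Fintype.card (A.B → Bool) : ℝ)⁻¹) *
      ∑ ξ : A.B → Bool, ∏ j, rescale (A.am ξ j) cser := rfl
    have h5 : ∀ c : ℝ, rescale (g x ^ 2) (C c) = C c := by
      intro c
      ext n
      rw [coeff_rescale]
      rcases Nat.eq_zero_or_pos n with rfl | hn
      · simp
      · rw [coeff_C, if_neg hn.ne', mul_zero]
    rw [h4, map_mul, h5, ← mul_assoc, ← map_mul, mul_inv_cancel₀ hc, map_one, one_mul, map_sum]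
    refine Finset.sum_congr rfl fun ξ _ => ?_
    rw [map_prod]
    refine Finset.prod_congr rfl fun j _ => ?_
    ext n
    rw [coeff_rescale, coeff_rescale, coeff_rescale, mul_pow]
    ring
  simp_rw [h3]
  rw [Finset.prod_mul_distrib, Finset.prod_const, Finset.card_univ, Fintype.card_fin, ← map_pow,
    coeff_C_mul]
  congr 1
  rw [Fintype.card_congr (Equiv.curry (Fin d) A.B Bool), Fintype.card_fun (α := Fin d),
    Fintype.card_fin]
  push_cast
  rfl

/-- the coefficient for Gaussian moments -/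
theorem gauss_coeff {σ : ℝ} (hA : ∀ k ≤ t, coeff k A.ser = (-σ) ^ k / (k.factorial : ℝ)) :
    coeff t (∏ x, rescale (g x ^ 2) A.ser) = (-σ) ^ t / (t.factorial : ℝ) * (∑ x, g x ^ 2) ^ t := by
  rw [coeff_prod_pi, Finset.sum_pow_eq_sum_piAntidiag, Finset.mul_sum]
  refine Finset.sum_congr rfl fun k hk => ?_
  have hsum : ∑ x, k x = t := (mem_piAntidiag.mp hk).1
  have h1 : ∏ x, coeff (k x) (rescale (g x ^ 2) A.ser) =
      (-σ) ^ t * (∏ x, (g x ^ 2) ^ k x) / ∏ x, (((k x).factorial : ℕ) : ℝ) := by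
    have h0 : (-σ) ^ t = ∏ x, (-σ) ^ k x := by
      rw [Finset.prod_pow_eq_pow_sum, hsum]
    rw [h0, ← Finset.prod_mul_distrib, ← Finset.prod_div_distrib]
    refine Finset.prod_congr rfl fun x _ => ?_
    have hx : k x ≤ t := by
      rw [← hsum]
      exact Finset.single_le_sum (f := k) (fun _ _ => Nat.zero_le _) (Finset.mem_univ x)
    rw [coeff_rescale, hA _ hx]
    ring
  have h2 := Nat.multinomial_spec univ k
  rw [hsum] at h2
  have h3 : (t.factorial : ℝ) = (∏ x, (((k x).factorial : ℕ) : ℝ)) * (Nat.multinomial univ k : ℝ) := by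
    rw [← h2]; push_cast; ring
  rw [h1, h3]
  have h4 : (∏ x, (((k x).factorial : ℕ) : ℝ)) ≠ 0 := Finset.prod_ne_zero_iff.mpr fun i _ => by
      exact_mod_cast Nat.factorial_ne_zero _
  have h5 : (Nat.multinomial univ k : ℝ) ≠ 0 := by
    exact_mod_cast (Nat.multinomial_pos _ _).ne'
  field_simp

end

open Pool.Agent.MP_a2be38_co in
/-- designs from a law with Gaussian moments -/
theorem design_of_law {t : ℕ} (ht : 1 ≤ t) (A : Law) {σ : ℝ} (hσ : 0 < σ)
    (hA : ∀ k ≤ t, coeff k A.ser = (-σ) ^ k / (k.factorial : ℝ)) :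
    ∃ Cst : ℕ, ∀ d : ℕ, 1 ≤ d → ∃ N : ℕ, N ≤ Cst * d ^ (t + t / 2) ∧ HasDesign d (2 * t + 1) N := by
  classical
  refine ⟨8 * (2 * (Fintype.card A.J + 1)) ^ t * (2 * (Fintype.card A.B + 1)) ^ (t / 2),
    fun d hd => ?_⟩
  obtain ⟨Ω, _, _, ε, hΩ, hε⟩ := exists_oa t (d * (Fintype.card A.J + 1))
    (Nat.mul_pos hd (Nat.succ_pos _)) (Fin d × A.J) (by
      rw [Fintype.card_prod, Fintype.card_fin]
      exact Nat.mul_le_mul_left d (Nat.le_succ _))
  obtain ⟨Ω', _, _, η, hΩ', hη⟩ := exists_oa (t / 2) (d * (Fintype.card A.B + 1))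
    (Nat.mul_pos hd (Nat.succ_pos _)) (Fin d × A.B) (by
      rw [Fintype.card_prod, Fintype.card_fin]
      exact Nat.mul_le_mul_left d (Nat.le_succ _))
  have hcΩ : (0 : ℝ) < Fintype.card Ω := by exact_mod_cast Fintype.card_pos
  have hcΩ' : (0 : ℝ) < Fintype.card Ω' := by exact_mod_cast Fintype.card_pos
  -- the vectors
  let am : Fin d × A.J → Ω' → ℝ := fun p ω' => Real.sqrt (lin A p.2 (η (p.1, A.β p.2) ω'))
  let y : Ω × Ω' → Eu d := fun w => WithLp.toLp 2 fun x => ∑ j : A.J, am (x, j) w.2 * ε (x, j) w.1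
  let κ : ℝ := (Fintype.card Ω : ℝ) * (Fintype.card Ω' : ℝ) * (((2 * t).factorial : ℝ) * σ ^ t /
    (2 ^ t * (t.factorial : ℝ)))
  have hκ : 0 < κ := by
    have h1 : (0 : ℝ) < ((2 * t).factorial : ℝ) := by exact_mod_cast Nat.factorial_pos _
    have h2 : (0 : ℝ) < (t.factorial : ℝ) := by exact_mod_cast Nat.factorial_pos _
    positivity
  have hmom : ∀ g : Eu d, ∑ w : Ω × Ω', κ⁻¹ * (inner ℝ (y w) g) ^ (2 * t) = ‖g‖ ^ (2 * t) := by
    intro g
    set G : Fin d → ℝ := fun x => WithLp.ofLp g x with hG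
    have hinner : ∀ w : Ω × Ω', inner ℝ (y w) g =
        ∑ p : Fin d × A.J, (G p.1 * am p w.2) * ε p w.1 := by
      intro w
      rw [PiLp.inner_apply, Fintype.sum_prod_type]
      refine Finset.sum_congr rfl fun x _ => ?_
      have : inner ℝ ((y w) x) (g x) = G x * ∑ j : A.J, am (x, j) w.2 * ε (x, j) w.1 := by
        simp [y, hG]
      rw [this, Finset.mul_sum]
      refine Finset.sum_congr rfl fun j _ => ?_
      ring
    have h1 : ∑ w : Ω × Ω', (inner ℝ (y w) g) ^ (2 * t) = ∑ ω' : Ω', ∑ ω : Ω,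
        (∑ p : Fin d × A.J, (G p.1 * am p ω') * ε p ω) ^ (2 * t) := by
      rw [Fintype.sum_prod_type, Finset.sum_comm]
      simp_rw [hinner]
    have h2 : ∀ ω' : Ω', ∑ ω : Ω, (∑ p : Fin d × A.J, (G p.1 * am p ω') * ε p ω) ^ (2 * t) =
        (Fintype.card Ω : ℝ) * (((2 * t).factorial : ℝ) / (-2) ^ t) *
          MvPolynomial.eval (fun i => η i ω') (gpoly A G t) := by
      intro ω'
      rw [sum_pow_two_mul hε t (by omega), gpoly_eval]
      congr 2
      refine Finset.prod_congr rfl fun p _ => ?_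
      rw [mul_pow, Real.sq_sqrt (lin_nonneg A p.2 _ (hη.sq _ _))]
    have h3 : (∑ ω' : Ω', MvPolynomial.eval (fun i => η i ω') (gpoly A G t)) =
        (Fintype.card Ω' : ℝ) * ((-σ) ^ t / (t.factorial : ℝ) * (∑ x, G x ^ 2) ^ t) := by
      have h4 := hη.avg_eq (isOA_cube (Fin d × A.B) (2 * (t / 2) + 1)) (gpoly A G t)
        ((gpoly_deg A G t).trans (by omega))
      rw [cube_avg, gauss_coeff A G t hA, mul_div_assoc, mul_comm] at h4
      have hc : (Fintype.card (Fin d × A.B → Bool) : ℝ) ≠ 0 := by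
        have := Fintype.card_pos (α := Fin d × A.B → Bool)
        positivity
      rw [div_eq_iff hcΩ'.ne'] at h4
      rw [h4]
      field_simp
    rw [← Finset.mul_sum, h1]
    simp_rw [h2]
    rw [← Finset.mul_sum, h3]
    have h5 : ∑ x, G x ^ 2 = ‖g‖ ^ 2 := (EuclideanSpace.real_norm_sq_eq g).symm
    rw [h5, ← pow_mul]
    have h6 : (2 : ℝ) ^ t ≠ 0 := by positivity
    have h7 : (t.factorial : ℝ) ≠ 0 := by exact_mod_cast Nat.factorial_ne_zero _
    have h8 : ((2 * t).factorial : ℝ) ≠ 0 := by exact_mod_cast Nat.factorial_ne_zero _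
    have h9 : (-σ) ^ t = (-1) ^ t * σ ^ t := by rw [← mul_pow]; ring
    have h10 : ((-2 : ℝ)) ^ t = (-1) ^ t * 2 ^ t := by rw [← mul_pow]; norm_num
    have h11 : ((-1 : ℝ)) ^ t ≠ 0 := pow_ne_zero _ (by norm_num)
    have h12 : σ ^ t ≠ 0 := by positivity
    rw [h9, h10]
    simp only [κ]
    field_simp
  obtain ⟨N, hN, hD⟩ := design_of_moment hd ht y (fun _ => κ⁻¹) (fun _ => inv_pos.mpr hκ) hmom
  refine ⟨N, hN.trans ?_, hD⟩
  rw [Fintype.card_prod]
  calc 2 * (Fintype.card Ω * Fintype.card Ω')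
      ≤ 2 * ((2 * (2 * (d * (Fintype.card A.J + 1))) ^ t) *
        (2 * (2 * (d * (Fintype.card A.B + 1))) ^ (t / 2))) :=
        Nat.mul_le_mul_left 2 (Nat.mul_le_mul hΩ hΩ')
    _ = 8 * (2 * (Fintype.card A.J + 1)) ^ t * (2 * (Fintype.card A.B + 1)) ^ (t / 2) *
        d ^ (t + t / 2) := by
        have e1 : ∀ J s : ℕ, (2 * (d * (J + 1))) ^ s = d ^ s * (2 * (J + 1)) ^ s := by
          intro J s
          rw [← mul_pow]
          congr 1
          ring
        rw [e1, e1, pow_add]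
        ring

end Pool.Agent.A2B69
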