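import Pool.Agent.Lib.MP_a2be38_co_h69.Ser

/-!
# One-dimensional laws built from signs with random amplitudes
-/

set_option autoImplicit false

open Finset PowerSeries

namespace Pool.Agent.A2B69

/-- A law: independent signs `ε_j`, independent bits `ξ_b`, amplitude of `ε_j` equal to `√(u j)` or
`√(v j)` according to the bit `ξ_(β j)`. -/
structure Law where
  J : Type
  B : Type
  [fJ : Fintype J]
  [fB : Fintype B]
  [dJ : DecidableEq J]
  [dB : DecidableEq B]
  β : J → B
  u : J → ℝ
  v : J → ℝ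
  hu : ∀ j, 0 ≤ u j
  hv : ∀ j, 0 ≤ v j

attribute [instance] Law.fJ Law.fB Law.dJ Law.dB

namespace Law

/-- squared amplitude -/
def am (A : Law) (ξ : A.B → Bool) (j : A.J) : ℝ := if ξ (A.β j) then A.u j else A.v j

/-- the generating series of the even moments -/
noncomputable def ser (A : Law) : PowerSeries ℝ :=
  C ((Fintype.card (A.B → Bool) : ℝ)⁻¹) * ∑ ξ : A.B → Bool, ∏ j, rescale (A.am ξ j) cser

end Law

theorem const_cser : constantCoeff cser = 1 := by
  rw [← coeff_zero_eq_constantCoeff_apply, coeff_cser]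
  simp

theorem const_rescale (c : ℝ) (F : PowerSeries ℝ) (hF : constantCoeff F = 1) :
    constantCoeff (rescale c F) = 1 := by
  rw [← coeff_zero_eq_constantCoeff_apply, coeff_rescale, pow_zero, one_mul,
    coeff_zero_eq_constantCoeff_apply, hF]

theorem const_prod {I : Type} (S : Finset I) (x : I → ℝ) :
    constantCoeff (∏ j ∈ S, rescale (x j) cser) = 1 := by
  rw [map_prod]
  exact Finset.prod_eq_one fun j _ => const_rescale _ _ const_cser

theorem coeff_one_prod {I : Type} (S : Finset I) (x : I → ℝ) :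
    coeff 1 (∏ j ∈ S, rescale (x j) cser) = - ∑ j ∈ S, x j := by
  classical
  induction S using Finset.induction_on with
  | empty => simp [coeff_one]
  | insert a S ha ih =>
    rw [Finset.prod_insert ha, Finset.sum_insert ha, coeff_mul,
      show antidiagonal 1 = {((0 : ℕ), 1), (1, 0)} from rfl, Finset.sum_pair (by simp), ih]
    simp only [coeff_zero_eq_constantCoeff_apply]
    rw [const_prod, const_rescale _ _ const_cser, coeff_rescale, coeff_cser]
    norm_num

namespace Law

theorem const_ser (A : Law) : constantCoeff A.ser = 1 := by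
  rw [ser, map_mul, constantCoeff_C, map_sum]
  simp_rw [const_prod]
  rw [Finset.sum_const, Finset.card_univ, nsmul_eq_mul, mul_one]
  exact inv_mul_cancel₀ (by
    have := Fintype.card_pos (α := A.B → Bool)
    positivity)

theorem am_nonneg (A : Law) (ξ : A.B → Bool) (j : A.J) : 0 ≤ A.am ξ j := by
  unfold am
  split_ifs
  · exact A.hu j
  · exact A.hv j

/-- minus the variance -/
theorem coeff_one_ser (A : Law) : coeff 1 A.ser = - ((Fintype.card (A.B → Bool) : ℝ)⁻¹ *
    ∑ ξ : A.B → Bool, ∑ j, A.am ξ j) := by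
  rw [ser, coeff_C_mul, map_sum]
  simp_rw [coeff_one_prod]
  rw [Finset.sum_neg_distrib]
  ring

theorem coeff_zero_ld (F : PowerSeries ℝ) (hF : constantCoeff F = 1) :
    coeff 0 (ld F) = coeff 1 F := by
  have h := congrArg (coeff 0) (ld_mul_self F hF)
  rw [coeff_derivative, coeff_mul, show antidiagonal 0 = {((0 : ℕ), 0)} from rfl,
    Finset.sum_singleton] at h
  simp only [coeff_zero_eq_constantCoeff_apply, hF, mul_one] at h ⊢
  rw [h]
  simp

theorem ld_zero_nonpos (A : Law) : coeff 0 (ld A.ser) ≤ 0 := by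
  rw [coeff_zero_ld _ A.const_ser, coeff_one_ser]
  have : 0 ≤ (Fintype.card (A.B → Bool) : ℝ)⁻¹ * ∑ ξ : A.B → Bool, ∑ j, A.am ξ j :=
    mul_nonneg (by positivity) (Finset.sum_nonneg fun ξ _ => Finset.sum_nonneg fun j _ =>
      A.am_nonneg ξ j)
  linarith

/-- independent sum -/
def add (A A' : Law) : Law where
  J := A.J ⊕ A'.J
  B := A.B ⊕ A'.B
  β := Sum.map A.β A'.β
  u := Sum.elim A.u A'.u
  v := Sum.elim A.v A'.v
  hu := by rintro (j | j); exacts [A.hu j, A'.hu j]
  hv := by rintro (j | j); exacts [A.hv j, A'.hv j]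

theorem ser_add (A A' : Law) : (A.add A').ser = A.ser * A'.ser := by
  have h1 : (A.add A').ser = C ((Fintype.card (A.B ⊕ A'.B → Bool) : ℝ)⁻¹) *
      ∑ ξ : A.B ⊕ A'.B → Bool, ∏ j : A.J ⊕ A'.J, rescale ((A.add A').am ξ j) cser := rfl
  rw [h1, ser, ser]
  have hcard : (Fintype.card (A.B ⊕ A'.B → Bool) : ℝ) =
      (Fintype.card (A.B → Bool) : ℝ) * (Fintype.card (A'.B → Bool) : ℝ) := by
    rw [Fintype.card_congr (Equiv.sumArrowEquivProdArrow A.B A'.B Bool), Fintype.card_prod]
    push_cast
    ring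
  rw [hcard, mul_inv, map_mul]
  rw [← Equiv.sum_comp (Equiv.sumArrowEquivProdArrow A.B A'.B Bool).symm, Fintype.sum_prod_type]
  have h2 : ∀ (ξ : A.B → Bool) (ξ' : A'.B → Bool), ∏ j : A.J ⊕ A'.J, rescale ((A.add A').am
      ((Equiv.sumArrowEquivProdArrow A.B A'.B Bool).symm (ξ, ξ')) j) cser =
      (∏ j, rescale (A.am ξ j) cser) * ∏ j, rescale (A'.am ξ' j) cser := by
    intro ξ ξ'
    rw [Fintype.prod_sum_type]
    rfl
  simp_rw [h2]
  rw [← Finset.sum_mul_sum]
  ring

/-- rescaling -/
def scale (A : Law) (c : ℝ) (hc : 0 ≤ c) : Law where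
  J := A.J
  B := A.B
  β := A.β
  u := fun j => c * A.u j
  v := fun j => c * A.v j
  hu := fun j => mul_nonneg hc (A.hu j)
  hv := fun j => mul_nonneg hc (A.hv j)

theorem ser_scale (A : Law) (c : ℝ) (hc : 0 ≤ c) : (A.scale c hc).ser = rescale c A.ser := by
  have h1 : (A.scale c hc).ser = C ((Fintype.card (A.B → Bool) : ℝ)⁻¹) *
      ∑ ξ : A.B → Bool, ∏ j : A.J, rescale ((A.scale c hc).am ξ j) cser := rfl
  rw [h1, ser, map_mul, map_sum]
  congr 1
  · ext n
    rw [coeff_rescale]
    rcases Nat.eq_zero_or_pos n with rfl | hn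
    · simp
    · rw [coeff_C, if_neg hn.ne', mul_zero]
  · refine Finset.sum_congr rfl fun ξ _ => ?_
    rw [map_prod]
    refine Finset.prod_congr rfl fun j _ => ?_
    have h2 : (A.scale c hc).am ξ j = c * A.am ξ j := by
      unfold am scale
      simp only
      split_ifs <;> rfl
    rw [h2]
    ext n
    rw [coeff_rescale, coeff_rescale, coeff_rescale, mul_pow]
    ring

/-- the trivial law -/
def zero : Law where
  J := Empty
  B := Unit
  β := fun _ => ()
  u := fun _ => 0
  v := fun _ => 0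
  hu := fun _ => le_rfl
  hv := fun _ => le_rfl

/-- a mixture of two sign sums -/
def block (J : Type) [Fintype J] [DecidableEq J] (u v : J → ℝ) (hu : ∀ j, 0 ≤ u j)
    (hv : ∀ j, 0 ≤ v j) : Law where
  J := J
  B := Unit
  β := fun _ => ()
  u := u
  v := v
  hu := hu
  hv := hv

theorem ser_block (J : Type) [Fintype J] [DecidableEq J] (u v : J → ℝ) (hu : ∀ j, 0 ≤ u j)
    (hv : ∀ j, 0 ≤ v j) : (block J u v hu hv).ser =
      C (1 / 2) * (∏ j, rescale (u j) cser + ∏ j, rescale (v j) cser) := by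
  have h1 : (block J u v hu hv).ser = C ((Fintype.card (Unit → Bool) : ℝ)⁻¹) *
      ∑ ξ : Unit → Bool, ∏ j : J, rescale ((block J u v hu hv).am ξ j) cser := rfl
  rw [h1, ← Equiv.sum_comp (Equiv.funUnique Unit Bool).symm]
  simp only [Fintype.sum_bool]
  congr 1
  simp

theorem ser_zero : zero.ser = 1 := by
  have h1 : zero.ser = C ((Fintype.card (Unit → Bool) : ℝ)⁻¹) *
      ∑ ξ : Unit → Bool, ∏ j : Empty, rescale (zero.am ξ j) cser := rfl
  rw [h1]
  simp only [Finset.univ_eq_empty, Finset.prod_empty, Finset.sum_const, Finset.card_univ,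
    nsmul_eq_mul, mul_one]
  rw [← map_natCast (C (R := ℝ)), ← map_mul]
  simp

/-- the sign -/
noncomputable def sign : Law := block Unit (fun _ => 1) (fun _ => 1) (fun _ => zero_le_one)
  (fun _ => zero_le_one)

theorem ser_sign : sign.ser = cser := by
  rw [sign, ser_block]
  simp only [Finset.univ_unique, Finset.prod_singleton, rescale_one, RingHom.id_apply]
  rw [← two_mul, ← mul_assoc]
  have : (C (1 / 2 : ℝ) : PowerSeries ℝ) * 2 = 1 := by
    rw [show (2 : PowerSeries ℝ) = C (2 : ℝ) from (map_ofNat C 2).symm, ← map_mul]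
    norm_num
  rw [this, one_mul]

end Law

end Pool.Agent.A2B69
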