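import Pool.Agent.Lib.MP_a2be38_co_h69.Semi
import Pool.Agent.Lib.MP_a2be38_co_h69.Final

/-!
# Weighted spherical designs of every strength with few points
-/

set_option autoImplicit false

open PowerSeries

namespace Pool.Agent.A2B69

open Pool.Agent.MP_a2be38_co in
/-- for every `t` there are weighted spherical designs of strength `2t+1` with
`O(d^(t+⌊t/2⌋))` points -/
theorem general_designs {t : ℕ} (ht : 1 ≤ t) : ∃ Cst : ℕ, ∀ d : ℕ, 1 ≤ d →
    ∃ N : ℕ, N ≤ Cst * d ^ (t + t / 2) ∧ HasDesign d (2 * t + 1) N := by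
  obtain ⟨A, h0, hk⟩ := exists_gaussian_law t
  refine design_of_law ht A (σ := - coeff 0 (ld A.ser)) (by linarith) ?_
  refine coeff_of_ld A.const_ser (fun _ => (neg_neg _).symm) ?_
  intro k h1 h2
  exact hk k h1 h2

end Pool.Agent.A2B69
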