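import Mathlib

/-!
# Binary orthogonal arrays of strength `2 s + 1` with `O(n^s)` rows (dual BCH codes)
-/

set_option autoImplicit false

open Finset

namespace Pool.Agent.A2B69

/-- A two-level orthogonal array of strength `r`: columns `I`, rows `Ω`. -/
structure IsOA {I Ω : Type} [Fintype Ω] (ε : I → Ω → ℝ) (r : ℕ) : Prop where
  sq : ∀ i ω, ε i ω ^ 2 = 1
  bal : ∀ S : Finset I, S.Nonempty → S.card ≤ r → ∑ ω, ∏ i ∈ S, ε i ω = 0

/-- the sign of an element of `ZMod 2` -/
def sg (z : ZMod 2) : ℝ := if z = 0 then 1 else -1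

theorem sg_add (a b : ZMod 2) : sg (a + b) = sg a * sg b := by
  have h : ∀ z : ZMod 2, z = 0 ∨ z = 1 := by decide
  rcases h a with rfl | rfl <;> rcases h b with rfl | rfl <;> simp [sg]
  intro h
  exact absurd (by decide) h

theorem sg_sq (a : ZMod 2) : sg a ^ 2 = 1 := by
  unfold sg
  split_ifs <;> norm_num

theorem sg_zero : sg 0 = 1 := by simp [sg]

theorem sg_sum {I : Type} (S : Finset I) (f : I → ZMod 2) :
    sg (∑ i ∈ S, f i) = ∏ i ∈ S, sg (f i) := by
  classical
  induction S using Finset.induction_on with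
  | empty => simp [sg]
  | insert a S ha ih => rw [Finset.sum_insert ha, Finset.prod_insert ha, sg_add, ih]

/-- the character sum over the dual space -/
theorem sum_dual {V : Type} [AddCommGroup V] [Module (ZMod 2) V]
    [Fintype (Module.Dual (ZMod 2) V)] (v : V) (hv : v ≠ 0) :
    ∑ φ : Module.Dual (ZMod 2) V, sg (φ v) = 0 := by
  obtain ⟨φ₀, h₀⟩ : ∃ φ : Module.Dual (ZMod 2) V, φ v ≠ 0 := by
    by_contra hcon
    push Not at hcon
    exact hv ((Module.forall_dual_apply_eq_zero_iff (ZMod 2) v).mp hcon)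
  have h1 : ∑ φ : Module.Dual (ZMod 2) V, sg (φ v) =
      ∑ φ : Module.Dual (ZMod 2) V, sg ((φ + φ₀) v) :=
    (Equiv.sum_comp (Equiv.addRight φ₀) (fun φ : Module.Dual (ZMod 2) V => sg (φ v))).symm
  have h2 : ∀ φ : Module.Dual (ZMod 2) V, sg ((φ + φ₀) v) = - sg (φ v) := by
    intro φ
    rw [LinearMap.add_apply, sg_add]
    have : sg (φ₀ v) = -1 := by rw [sg, if_neg h₀]
    rw [this]
    ring
  simp_rw [h2, Finset.sum_neg_distrib] at h1
  linarith

/-- power sums of few distinct elements -/
theorem power_sums {F I : Type} [Field F] [CharP F 2] (e : I → F) (he : Function.Injective e)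
    (s : ℕ) (S : Finset I) (hS : S.Nonempty) (hcard : S.card ≤ 2 * s + 1)
    (h0 : (S.card : F) = 0) (h : ∀ i < s, ∑ x ∈ S, e x ^ (2 * i + 1) = 0) : False := by
  haveI : Fact (Nat.Prime 2) := ⟨Nat.prime_two⟩
  haveI : ExpChar F 2 := ExpChar.prime Nat.prime_two
  have hall : ∀ j : ℕ, j ≤ 2 * s → ∑ x ∈ S, e x ^ j = 0 := by
    intro j
    induction j using Nat.strong_induction_on with
    | _ j ih =>
      intro hj
      rcases Nat.even_or_odd j with hev | hodd
      · obtain ⟨i, hi⟩ := hev
        by_cases hi0 : i = 0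
        · have hj0 : j = 0 := by omega
          subst hj0
          simpa using h0
        · have h1 := ih i (by omega) (by omega)
          have h2 : ∑ x ∈ S, e x ^ j = (∑ x ∈ S, e x ^ i) ^ 2 := by
            rw [sum_pow_char 2]
            exact Finset.sum_congr rfl fun x _ => by rw [← pow_mul, hi]; congr 1; omega
          rw [h2, h1]
          ring
      · obtain ⟨i, hi⟩ := hodd
        have := h i (by omega)
        rw [hi]
        exact this
  let f : Fin S.card ≃ S := (Fintype.equivFinOfCardEq (by simp)).symm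
  have hdet : (Matrix.vandermonde fun i => e (f i)).det ≠ 0 := by
    rw [Matrix.det_vandermonde_ne_zero_iff]
    intro i j hij
    exact f.injective (Subtype.ext (he hij))
  have hv : Matrix.vecMul (fun _ => (1 : F)) (Matrix.vandermonde fun i => e (f i)) = 0 := by
    funext j
    have h1 : ∑ i : Fin S.card, e (f i) ^ (j : ℕ) = 0 := by
      rw [Equiv.sum_comp f (fun x : S => e x ^ (j : ℕ)), Finset.sum_coe_sort S (fun x => e x ^ (j : ℕ))]
      exact hall j (by have := j.isLt; omega)
    simpa [Matrix.vecMul, dotProduct, Matrix.vandermonde_apply] using h1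
  have h1 := Matrix.eq_zero_of_vecMul_eq_zero hdet hv
  obtain ⟨x, hx⟩ := hS
  have h2 := congrFun h1 (f.symm ⟨x, hx⟩)
  exact one_ne_zero h2

/-- Orthogonal arrays of strength `2 s + 1` with at most `2 (2 n)^s` rows. -/
theorem exists_oa (s n : ℕ) (hn : 1 ≤ n) (I : Type) [Fintype I] (hI : Fintype.card I ≤ n) :
    ∃ (Ω : Type) (_ : Fintype Ω) (_ : Nonempty Ω) (ε : I → Ω → ℝ),
      Fintype.card Ω ≤ 2 * (2 * n) ^ s ∧ IsOA ε (2 * s + 1) := by
  classical
  haveI : Fact (Nat.Prime 2) := ⟨Nat.prime_two⟩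
  set m := Nat.log 2 n + 1 with hm
  have hm1 : n < 2 ^ m := Nat.lt_pow_succ_log_self (by norm_num) n
  have hm2 : 2 ^ m ≤ 2 * n := by
    rw [hm, pow_succ, mul_comm]
    exact Nat.mul_le_mul_left 2 (Nat.pow_log_le_self 2 (by omega))
  let F := GaloisField 2 m
  haveI : Fintype F := Fintype.ofFinite F
  have hF : Fintype.card F = 2 ^ m := by
    rw [← Nat.card_eq_fintype_card]
    exact GaloisField.card 2 m (by omega)
  obtain ⟨e⟩ : Nonempty (I ↪ F) := Function.Embedding.nonempty_of_card_le (by omega)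
  let V := ZMod 2 × (Fin s → F)
  haveI : Module.Finite (ZMod 2) F := Module.Finite.of_finite
  haveI : Module.Finite (ZMod 2) V := inferInstance
  haveI : Finite (Module.Dual (ZMod 2) V) := Module.finite_of_finite (ZMod 2)
  haveI : Fintype (Module.Dual (ZMod 2) V) := Fintype.ofFinite _
  let H : I → V := fun x => (1, fun i => e x ^ (2 * (i : ℕ) + 1))
  refine ⟨Module.Dual (ZMod 2) V, inferInstance, ⟨0⟩, fun x φ => sg (φ (H x)), ?_, ?_, ?_⟩
  · have h1 : Fintype.card (Module.Dual (ZMod 2) V) = Fintype.card V := by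
      rw [Module.card_eq_pow_finrank (K := ZMod 2) (V := Module.Dual (ZMod 2) V),
        Module.card_eq_pow_finrank (K := ZMod 2) (V := V), Subspace.dual_finrank_eq]
    rw [h1]
    have h2 : Fintype.card V = 2 * (2 ^ m) ^ s := by
      simp only [V, Fintype.card_prod, ZMod.card, Fintype.card_fun, Fintype.card_fin, hF]
    rw [h2]
    exact Nat.mul_le_mul_left 2 (Nat.pow_le_pow_left hm2 s)
  · intro i ω
    exact sg_sq _
  · intro S hS hcard
    have h1 : ∀ φ : Module.Dual (ZMod 2) V, ∏ i ∈ S, sg (φ (H i)) = sg (φ (∑ i ∈ S, H i)) := by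
      intro φ
      rw [map_sum, sg_sum]
    simp_rw [h1]
    apply sum_dual
    intro hzero
    apply power_sums e e.injective s S hS hcard
    · have h2 := congrArg Prod.fst hzero
      rw [Prod.fst_sum] at h2
      simp only [H, Finset.sum_const, Prod.fst_zero] at h2
      rw [nsmul_eq_mul, mul_one] at h2
      have h3 := (CharP.cast_eq_zero_iff (ZMod 2) 2 S.card).mp h2
      exact (CharP.cast_eq_zero_iff F 2 S.card).mpr h3
    · intro i hi
      have h2 := congrArg Prod.snd hzero
      rw [Prod.snd_sum] at h2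
      have h3 := congrFun h2 ⟨i, hi⟩
      simpa [H] using h3

section Monomials

variable {I Ω : Type} [Fintype Ω] {ε : I → Ω → ℝ} {r : ℕ}

/-- the sum of a monomial over the rows of an orthogonal array -/
theorem IsOA.monomial (h : IsOA ε r) (S : Finset I) (k : I → ℕ) (hk : ∑ i ∈ S, k i ≤ r) :
    ∑ ω, ∏ i ∈ S, ε i ω ^ k i = if ∀ i ∈ S, Even (k i) then (Fintype.card Ω : ℝ) else 0 := by
  classical
  have h1 : ∀ ω, ∏ i ∈ S, ε i ω ^ k i = ∏ i ∈ S.filter fun i => Odd (k i), ε i ω := by
    intro ω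
    rw [Finset.prod_filter]
    refine Finset.prod_congr rfl fun i _ => ?_
    split_ifs with ho
    · obtain ⟨j, hj⟩ := ho
      rw [hj, pow_succ, pow_mul, h.sq, one_pow, one_mul]
    · obtain ⟨j, hj⟩ := Nat.not_odd_iff_even.mp ho
      rw [hj, ← two_mul, pow_mul, h.sq, one_pow]
  simp_rw [h1]
  split_ifs with hev
  · have : S.filter (fun i => Odd (k i)) = ∅ := by
      rw [Finset.filter_eq_empty_iff]
      intro i hi
      exact Nat.not_odd_iff_even.mpr (hev i hi)
    rw [this]
    simp
  · apply h.bal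
    · push Not at hev
      obtain ⟨i, hi, hi'⟩ := hev
      exact ⟨i, Finset.mem_filter.mpr ⟨hi, Nat.not_even_iff_odd.mp hi'⟩⟩
    · calc (S.filter fun i => Odd (k i)).card = ∑ i ∈ S.filter fun i => Odd (k i), 1 := by simp
        _ ≤ ∑ i ∈ S.filter fun i => Odd (k i), k i := by
            refine Finset.sum_le_sum fun i hi => ?_
            exact (Finset.mem_filter.mp hi).2.pos
        _ ≤ ∑ i ∈ S, k i := Finset.sum_le_sum_of_subset (Finset.filter_subset _ _)
        _ ≤ r := hk

/-- averages of polynomials of degree at most the strength do not depend on the array -/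
theorem IsOA.avg_eq {Ω' : Type} [Fintype Ω'] [Nonempty Ω] [Nonempty Ω'] {ε' : I → Ω' → ℝ}
    (h : IsOA ε r) (h' : IsOA ε' r) (P : MvPolynomial I ℝ) (hP : P.totalDegree ≤ r) :
    (∑ ω, MvPolynomial.eval (fun i => ε i ω) P) / Fintype.card Ω =
      (∑ ω, MvPolynomial.eval (fun i => ε' i ω) P) / Fintype.card Ω' := by
  classical
  have key : ∀ (Ω : Type) [Fintype Ω] [Nonempty Ω] (ε : I → Ω → ℝ), IsOA ε r →
      (∑ ω, MvPolynomial.eval (fun i => ε i ω) P) / Fintype.card Ω =
        ∑ s ∈ P.support, P.coeff s * (if ∀ i ∈ s.support, Even (s i) then 1 else 0) := by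
    intro Ω _ _ ε h
    have hc : (Fintype.card Ω : ℝ) ≠ 0 := by
      have := Fintype.card_pos (α := Ω)
      positivity
    rw [div_eq_iff hc]
    simp_rw [MvPolynomial.eval_eq]
    rw [Finset.sum_comm, Finset.sum_mul]
    refine Finset.sum_congr rfl fun s hs => ?_
    rw [← Finset.mul_sum, h.monomial s.support s]
    · split_ifs
      · ring
      · ring
    · exact (MvPolynomial.le_totalDegree hs).trans hP
  rw [key Ω ε h, key Ω' ε' h']

/-- the full cube -/
theorem isOA_cube (I : Type) [Fintype I] [DecidableEq I] (r : ℕ) :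
    IsOA (fun (i : I) (ω : I → Bool) => if ω i then (1 : ℝ) else -1) r := by
  constructor
  · intro i ω
    split_ifs <;> norm_num
  · intro S hS _
    have h1 : ∀ ω : I → Bool, ∏ i ∈ S, (if ω i then (1 : ℝ) else -1) =
        ∏ i, (if i ∈ S then (if ω i then (1 : ℝ) else -1) else 1) := by
      intro ω
      rw [Finset.prod_ite_mem, Finset.univ_inter]
    simp_rw [h1]
    have h2 := (Finset.prod_univ_sum (fun _ : I => (Finset.univ : Finset Bool))
      (fun i b => if i ∈ S then (if b then (1 : ℝ) else -1) else 1)).symm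
    rw [Fintype.piFinset_univ] at h2
    rw [h2]
    obtain ⟨i, hi⟩ := hS
    apply Finset.prod_eq_zero (Finset.mem_univ i)
    simp [hi]

end Monomials

end Pool.Agent.A2B69
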