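import Pool.Agent.Lib.MP_a2be38_co_h69.Law

/-!
# Laws whose logarithmic derivative has a positive coefficient in a prescribed degree
-/

set_option autoImplicit false

open Finset PowerSeries

namespace Pool.Agent.A2B69

/-- the differential equation of `cos √(2 X)` -/
theorem cser_ode : 2 * X * derivative ℝ (derivative ℝ cser) + derivative ℝ cser + cser = 0 := by
  ext k
  have h2 : ∀ F : PowerSeries ℝ, coeff k (2 * X * F) = if k = 0 then 0 else 2 * coeff (k - 1) F := by
    intro F
    rw [show (2 : PowerSeries ℝ) = C (2 : ℝ) from (map_ofNat C 2).symm, mul_assoc, coeff_C_mul]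
    rcases Nat.eq_zero_or_pos k with rfl | hk
    · simp
    · obtain ⟨j, rfl⟩ := Nat.exists_eq_succ_of_ne_zero hk.ne'
      rw [Nat.succ_eq_add_one, coeff_succ_X_mul]
      simp
  rw [map_add, map_add, h2, map_zero]
  simp only [coeff_derivative, coeff_cser]
  have hf : ∀ j : ℕ, (((2 * (j + 1)).factorial : ℕ) : ℝ) =
      (2 * j + 2) * (2 * j + 1) * (((2 * j).factorial : ℕ) : ℝ) := by
    intro j
    rw [show 2 * (j + 1) = 2 * j + 1 + 1 by ring, Nat.factorial_succ, Nat.factorial_succ]
    push_cast
    ring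
  have h0 : (((2 * k).factorial : ℕ) : ℝ) ≠ 0 := by exact_mod_cast Nat.factorial_ne_zero _
  split_ifs with hk
  · subst hk
    norm_num
  · obtain ⟨j, rfl⟩ := Nat.exists_eq_succ_of_ne_zero hk
    rw [Nat.succ_eq_add_one, Nat.add_sub_cancel, hf (j + 1)]
    have h1 : (((2 * (j + 1)).factorial : ℕ) : ℝ) ≠ 0 := by exact_mod_cast Nat.factorial_ne_zero _
    push_cast
    field_simp
    ring

/-- minus the coefficients of the logarithmic derivative of `cos √(2 X)` -/
noncomputable def yc (k : ℕ) : ℝ := - coeff k (ld cser)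

theorem yc_rec (k : ℕ) : (2 * (k : ℝ) + 1) * yc k = (if k = 0 then 1 else 0) +
    2 * (if k = 0 then 0 else ∑ ij ∈ antidiagonal (k - 1), yc ij.1 * yc ij.2) := by
  have h1 : 2 * X * (derivative ℝ (ld cser) + ld cser * ld cser) + ld cser + 1 = 0 := by
    have h2 := cser_ode
    rw [← ld_mul_self cser const_cser, Derivation.leibniz, smul_eq_mul, smul_eq_mul,
      ← ld_mul_self cser const_cser] at h2
    have h3 : (2 * X * (derivative ℝ (ld cser) + ld cser * ld cser) + ld cser + 1) * cser = 0 := by
      rw [← h2]; ring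
    rcases mul_eq_zero.mp h3 with h4 | h4
    · exact h4
    · exfalso
      have h5 := const_cser
      rw [h4, map_zero] at h5
      exact zero_ne_one h5
  have h2 := congrArg (coeff k) h1
  have h3 : ∀ F : PowerSeries ℝ, coeff k (2 * X * F) = if k = 0 then 0 else 2 * coeff (k - 1) F := by
    intro F
    rw [show (2 : PowerSeries ℝ) = C (2 : ℝ) from (map_ofNat C 2).symm, mul_assoc, coeff_C_mul]
    rcases Nat.eq_zero_or_pos k with rfl | hk
    · simp
    · obtain ⟨j, rfl⟩ := Nat.exists_eq_succ_of_ne_zero hk.ne'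
      rw [Nat.succ_eq_add_one, coeff_succ_X_mul]
      simp
  rw [map_add, map_add, h3, map_zero, coeff_one] at h2
  unfold yc
  split_ifs at h2 ⊢ with hk
  · subst hk
    push_cast
    linarith
  · obtain ⟨j, rfl⟩ := Nat.exists_eq_succ_of_ne_zero hk
    rw [Nat.succ_eq_add_one, Nat.add_sub_cancel, map_add, coeff_derivative, coeff_mul] at h2
    rw [Nat.succ_eq_add_one, Nat.add_sub_cancel]
    simp_rw [neg_mul_neg]
    push_cast
    linarith

theorem yc_pos (k : ℕ) : 0 < yc k := by
  induction k using Nat.strong_induction_on with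
  | _ k ih =>
    have h := yc_rec k
    have h1 : 0 < (2 * (k : ℝ) + 1) := by positivity
    have h2 : 0 < (2 * (k : ℝ) + 1) * yc k := by
      rw [h]
      split_ifs with hk
      · norm_num
      · have : 0 < ∑ ij ∈ antidiagonal (k - 1), yc ij.1 * yc ij.2 := by
          apply Finset.sum_pos
          · intro ij hij
            have hij' := Finset.HasAntidiagonal.mem_antidiagonal.mp hij
            exact mul_pos (ih ij.1 (by omega)) (ih ij.2 (by omega))
          · exact ⟨(0, k - 1), Finset.HasAntidiagonal.mem_antidiagonal.mpr (zero_add _)⟩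
        linarith
    exact (pos_iff_pos_of_mul_pos h2).mp h1

/-- logarithmic derivative of a sign sum -/
theorem coeff_ld_prod {I : Type} (S : Finset I) (x : I → ℝ) (k : ℕ) :
    coeff k (ld (∏ j ∈ S, rescale (x j) cser)) = - yc k * ∑ j ∈ S, x j ^ (k + 1) := by
  rw [ld_prod S _ fun i _ => const_rescale _ _ const_cser, map_sum, Finset.mul_sum]
  refine Finset.sum_congr rfl fun i _ => ?_
  rw [ld_rescale _ const_cser, yc]
  ring

/-- logarithmic derivative of a mixture -/
theorem ld_mix (P Q : PowerSeries ℝ) (hP : constantCoeff P = 1) (hQ : constantCoeff Q = 1) :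
    ∃ W : PowerSeries ℝ, constantCoeff W = 0 ∧
      2 * derivative ℝ W = (ld P - ld Q) * (1 - W ^ 2) ∧
      2 * ld (C (1 / 2) * (P + Q)) = ld P + ld Q + W * (ld P - ld Q) := by
  have hC2 : (C (1 / 2 : ℝ) : PowerSeries ℝ) * 2 = 1 := by
    rw [show (2 : PowerSeries ℝ) = C (2 : ℝ) from (map_ofNat C 2).symm, ← map_mul]
    norm_num
  have hc : constantCoeff (P + Q) ≠ 0 := by
    rw [map_add, hP, hQ]; norm_num
  set V := (P + Q)⁻¹ with hV
  have hV1 : (P + Q) * V = 1 := PowerSeries.mul_inv_cancel _ hc
  have hne : (P + Q) ≠ 0 := by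
    intro h
    rw [h, map_zero] at hc
    exact hc rfl
  refine ⟨(P - Q) * V, ?_, ?_, ?_⟩
  · rw [map_mul, map_sub, hP, hQ, sub_self, zero_mul]
  · set W := (P - Q) * V with hW
    have hW1 : W * (P + Q) = P - Q := by
      rw [hW, mul_assoc, mul_comm V, hV1, mul_one]
    have hd := congrArg (derivative ℝ) hW1
    rw [Derivation.leibniz, map_add, map_sub, smul_eq_mul, smul_eq_mul, ← ld_mul_self P hP,
      ← ld_mul_self Q hQ] at hd
    have hP2 : 2 * P = (P + Q) * (1 + W) := by
      have : (P + Q) * (1 + W) = (P + Q) + W * (P + Q) := by ring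
      rw [this, hW1]; ring
    have hQ2 : 2 * Q = (P + Q) * (1 - W) := by
      have : (P + Q) * (1 - W) = (P + Q) - W * (P + Q) := by ring
      rw [this, hW1]; ring
    have h2 : (P + Q) * (2 * derivative ℝ W) = (P + Q) * ((ld P - ld Q) * (1 - W ^ 2)) := by
      have e1 : (P + Q) * (2 * derivative ℝ W) = 2 * ((P + Q) * derivative ℝ W) := by ring
      have e2 : (P + Q) * derivative ℝ W = ld P * P - ld Q * Q - W * (ld P * P + ld Q * Q) := by
        rw [← hd]; ring
      rw [e1, e2]
      have e3 : 2 * (ld P * P - ld Q * Q - W * (ld P * P + ld Q * Q)) =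
          ld P * (2 * P) * (1 - W) - ld Q * (2 * Q) * (1 + W) := by ring
      rw [e3, hP2, hQ2]
      ring
    exact mul_left_cancel₀ hne h2
  · set W := (P - Q) * V with hW
    have hW1 : W * (P + Q) = P - Q := by
      rw [hW, mul_assoc, mul_comm V, hV1, mul_one]
    have h1 : ld (C (1 / 2) * (P + Q)) = C (1 / 2) * (ld P + ld Q + W * (ld P - ld Q)) := by
      apply ld_unique
      · rw [map_mul, map_add, hP, hQ, constantCoeff_C]; norm_num
      · have e1 : derivative ℝ (C (1 / 2) * (P + Q)) = C (1 / 2) * (ld P * P + ld Q * Q) := by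
          rw [Derivation.leibniz, map_add, ← ld_mul_self P hP, ← ld_mul_self Q hQ, smul_eq_mul]
          have : derivative ℝ (C (1 / 2 : ℝ) : PowerSeries ℝ) = 0 := by
            ext n
            rw [coeff_derivative, coeff_C, if_neg (Nat.succ_ne_zero n)]
            simp
          rw [this, smul_zero, add_zero]
        rw [e1]
        have e2 : C (1 / 2) * (ld P + ld Q + W * (ld P - ld Q)) * (C (1 / 2) * (P + Q)) =
            C (1 / 2) * (C (1 / 2) * ((ld P + ld Q) * (P + Q) + (W * (P + Q)) * (ld P - ld Q))) := by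
          ring
        rw [e2, hW1]
        have e3 : (ld P + ld Q) * (P + Q) + (P - Q) * (ld P - ld Q) =
            2 * (ld P * P + ld Q * Q) := by ring
        rw [e3, ← mul_assoc (C (1 / 2 : ℝ)) 2, hC2, one_mul]
    rw [h1, ← mul_assoc, mul_comm 2, hC2, one_mul]

/-- the lowest coefficients of `W` -/
theorem coeff_W {W δ : PowerSeries ℝ} (hW0 : constantCoeff W = 0)
    (hW : 2 * derivative ℝ W = δ * (1 - W ^ 2)) {m : ℕ} (hm : 1 ≤ m)
    (hδ : ∀ j, j < m - 1 → coeff j δ = 0) :
    (∀ j < m, coeff j W = 0) ∧ 2 * m * coeff m W = coeff (m - 1) δ ∧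
      2 * (m + 1) * coeff (m + 1) W = coeff m δ := by
  have hder : ∀ k : ℕ, 2 * ((k : ℝ) + 1) * coeff (k + 1) W = coeff k (δ * (1 - W ^ 2)) := by
    intro k
    rw [← hW, show (2 : PowerSeries ℝ) = C (2 : ℝ) from (map_ofNat C 2).symm, coeff_C_mul,
      coeff_derivative]
    ring
  have hlow : ∀ j < m, coeff j W = 0 := by
    intro j
    induction j using Nat.strong_induction_on with
    | _ j ih =>
      intro hj
      rcases Nat.eq_zero_or_pos j with rfl | hj0
      · rw [coeff_zero_eq_constantCoeff_apply, hW0]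
      · obtain ⟨k, rfl⟩ := Nat.exists_eq_succ_of_ne_zero hj0.ne'
        have h1 := hder k
        rw [coeff_mul, Finset.sum_eq_zero] at h1
        · rcases mul_eq_zero.mp h1 with h2 | h2
          · exfalso
            have : (0 : ℝ) < 2 * ((k : ℝ) + 1) := by positivity
            linarith
          · exact h2
        · intro ij hij
          have hij' := Finset.HasAntidiagonal.mem_antidiagonal.mp hij
          rw [hδ ij.1 (by omega), zero_mul]
  have hW2 : ∀ j < 2 * m, coeff j (W ^ 2) = 0 := by
    intro j hj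
    rw [pow_two, coeff_mul]
    refine Finset.sum_eq_zero fun ij hij => ?_
    have hij' := Finset.HasAntidiagonal.mem_antidiagonal.mp hij
    rcases lt_or_ge ij.1 m with h | h
    · rw [hlow _ h, zero_mul]
    · rw [hlow ij.2 (by omega), mul_zero]
  have hk : ∀ k, k ≤ m → coeff k (δ * (1 - W ^ 2)) = coeff k δ := by
    intro k hk
    rw [coeff_mul, Finset.sum_eq_single (k, 0)]
    · rw [map_sub, hW2 0 (by omega)]
      simp
    · intro ij hij hne
      have hij' := Finset.HasAntidiagonal.mem_antidiagonal.mp hij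
      have h2 : ij.2 ≠ 0 := by
        intro h2
        apply hne
        rw [h2, add_zero] at hij'
        exact Prod.ext hij' h2
      rw [map_sub, hW2 ij.2 (by omega), coeff_one, if_neg h2, sub_zero, mul_zero]
    · intro h
      exact absurd (Finset.HasAntidiagonal.mem_antidiagonal.mpr (add_zero k)) h
  refine ⟨hlow, ?_, ?_⟩
  · have h1 := hder (m - 1)
    rw [hk _ (by omega), Nat.sub_add_cancel hm] at h1
    rw [← h1]
    have : ((m - 1 : ℕ) : ℝ) + 1 = m := by
      rw [Nat.cast_sub hm]; simp
    rw [this]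
  · have h1 := hder m
    rw [hk _ le_rfl] at h1
    exact h1

/-- the lowest coefficients of `W δ` -/
theorem coeff_Wδ {W δ : PowerSeries ℝ} (hW0 : constantCoeff W = 0)
    (hW : 2 * derivative ℝ W = δ * (1 - W ^ 2)) {m : ℕ} (hm : 1 ≤ m)
    (hδ : ∀ j, j < m - 1 → coeff j δ = 0) :
    coeff (2 * m - 1) (W * δ) = (2 * (m : ℝ))⁻¹ * coeff (m - 1) δ ^ 2 ∧
      coeff (2 * m) (W * δ) =
        ((2 * (m : ℝ))⁻¹ + (2 * ((m : ℝ) + 1))⁻¹) * (coeff (m - 1) δ * coeff m δ) := by
  obtain ⟨h1, h2, h3⟩ := coeff_W hW0 hW hm hδ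
  have hm0 : (0 : ℝ) < m := by exact_mod_cast hm
  have hm1 : (0 : ℝ) < (m : ℝ) + 1 := by positivity
  constructor
  · rw [coeff_mul, Finset.sum_eq_single (m, m - 1)]
    · simp only
      rw [← h2]
      field_simp
    · intro ij hij hne
      have hij' := Finset.HasAntidiagonal.mem_antidiagonal.mp hij
      rcases lt_or_ge ij.1 m with h | h
      · rw [h1 _ h, zero_mul]
      · rw [hδ ij.2 (by
          by_contra hcon
          apply hne
          exact Prod.ext (by simp only; omega) (by simp only; omega)), mul_zero]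
    · intro h
      exact absurd (Finset.HasAntidiagonal.mem_antidiagonal.mpr (by omega)) h
  · have hne : ((m, m) : ℕ × ℕ) ≠ (m + 1, m - 1) := by
      intro h
      have := congrArg Prod.fst h
      simp at this
    have hsub : ({(m, m), (m + 1, m - 1)} : Finset (ℕ × ℕ)) ⊆ antidiagonal (2 * m) := by
      intro ij hij
      rw [Finset.mem_insert, Finset.mem_singleton] at hij
      rcases hij with rfl | rfl
      · exact Finset.HasAntidiagonal.mem_antidiagonal.mpr (by simp only; omega)
      · exact Finset.HasAntidiagonal.mem_antidiagonal.mpr (by simp only; omega)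
    rw [coeff_mul, ← Finset.sum_subset hsub, Finset.sum_pair hne]
    · simp only
      rw [← h2, ← h3]
      field_simp
    · intro ij hij hnot
      have hij' := Finset.HasAntidiagonal.mem_antidiagonal.mp hij
      rcases lt_or_ge ij.1 m with h | h
      · rw [h1 _ h, zero_mul]
      · rw [hδ ij.2 (by
          by_contra hcon
          apply hnot
          rw [Finset.mem_insert, Finset.mem_singleton]
          rcases Nat.eq_or_lt_of_le h with h' | h'
          · left
            exact Prod.ext h'.symm (by simp only; omega)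
          · right
            exact Prod.ext (by simp only; omega) (by simp only; omega)), mul_zero]

end Pool.Agent.A2B69
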