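import Pool.Agent.Lib.MP_a2be38_co_h69.Block
import Mathlib.Analysis.Calculus.InverseFunctionTheorem.FDeriv

/-!
# A law with Gaussian moments up to a given order
-/

set_option autoImplicit false

open Finset PowerSeries Topology

namespace Pool.Agent.A2B69

/-- a graded semigroup with interior and positive and negative coordinates contains zero -/
theorem zero_mem_of_semigroup {n : ℕ} (S P : Set (Fin n → ℝ)) (h0 : (0 : Fin n → ℝ) ∈ S)
    (hadd : ∀ x ∈ S, ∀ y ∈ S, x + y ∈ S)
    (hD : ∀ c : ℝ, 0 < c → ∀ x ∈ S, (fun i : Fin n => c ^ ((i : ℕ) + 2) * x i) ∈ S)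
    (hpos : ∀ i, ∃ x ∈ S, 0 < x i) (hneg : ∀ i, ∃ x ∈ S, x i < 0) (hP : P ⊆ S)
    (hPS : ∀ x ∈ P, ∀ y ∈ S, x + y ∈ P) (c0 : Fin n → ℝ) (hc0 : P ∈ 𝓝 c0) :
    (0 : Fin n → ℝ) ∈ P := by
  classical
  set K : Submodule NNReal (Fin n → ℝ) := Submodule.span NNReal S with hK
  set C : Submodule NNReal (Fin n → ℝ) := K.topologicalClosure with hC
  have hCclosed : IsClosed (C : Set (Fin n → ℝ)) := K.isClosed_topologicalClosure
  have hSC : ∀ x ∈ S, x ∈ C := fun x hx => K.le_topologicalClosure (Submodule.subset_span hx)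
  have hsm : ∀ (c : ℝ), 0 ≤ c → ∀ x ∈ C, c • x ∈ C := by
    intro c hc x hx
    exact C.smul_mem (⟨c, hc⟩ : NNReal) hx
  -- multiples of unit vectors
  have key : ∀ (i : Fin n) (a : ℝ), Pi.single i a ∈ C := by
    intro i
    induction i using WellFoundedLT.induction with
    | _ i ih =>
      have main : ∀ v ∈ S, Pi.single i (v i) ∈ C := by
        intro v hv
        let w : ℝ → Fin n → ℝ := fun c j => if j < i then 0 else c ^ ((j : ℕ) - (i : ℕ)) * v j
        have hwc : Continuous w := by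
          refine continuous_pi fun j => ?_
          by_cases hj : j < i
          · simp only [w, if_pos hj]; exact continuous_const
          · simp only [w, if_neg hj]
            exact (continuous_pow _).mul continuous_const
        have hw0 : w 0 = Pi.single i (v i) := by
          funext j
          by_cases hj : j < i
          · simp [w, if_pos hj, hj.ne]
          · by_cases hji : j = i
            · subst hji; simp [w]
            · have hlt : (i : ℕ) < (j : ℕ) := by
                have h1 : i < j := lt_of_le_of_ne (not_lt.mp hj) (Ne.symm hji)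
                exact h1
              have h2 : (j : ℕ) - (i : ℕ) ≠ 0 := by omega
              simp [w, if_neg hj, hji, h2]
        have hwC : ∀ c : ℝ, 0 < c → w c ∈ C := by
          intro c hc
          have h1 : w c = (c ^ ((i : ℕ) + 2))⁻¹ • (fun j : Fin n => c ^ ((j : ℕ) + 2) * v j) +
              ∑ j ∈ univ.filter (fun j => j < i),
                Pi.single j (-((c ^ ((i : ℕ) + 2))⁻¹ * (c ^ ((j : ℕ) + 2) * v j))) := by
            funext j
            have hcne : c ^ ((i : ℕ) + 2) ≠ 0 := by positivity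
            rw [Pi.add_apply, Finset.sum_apply, Pi.smul_apply, smul_eq_mul]
            by_cases hj : j < i
            · rw [Finset.sum_eq_single j]
              · simp [w, if_pos hj]
              · intro b _ hb
                rw [Pi.single_apply, if_neg (Ne.symm hb)]
              · intro h
                exact absurd (show j ∈ univ.filter (fun j => j < i) from
                  mem_filter.mpr ⟨mem_univ j, hj⟩) h
            · rw [Finset.sum_eq_zero]
              · have hle : (i : ℕ) ≤ (j : ℕ) := not_lt.mp hj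
                have h2 : c ^ ((j : ℕ) + 2) = c ^ ((i : ℕ) + 2) * c ^ ((j : ℕ) - (i : ℕ)) := by
                  rw [← pow_add]; congr 1; omega
                simp only [w, if_neg hj, add_zero]
                rw [h2]
                field_simp
              · intro b hb
                rw [Pi.single_apply, if_neg]
                rintro rfl
                exact hj (mem_filter.mp hb).2
          rw [h1]
          refine C.add_mem (hsm _ (by positivity) _ (hSC _ (hD c hc v hv))) ?_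
          exact C.sum_mem fun j hj => ih j (mem_filter.mp hj).2 _
        have hcl : IsClosed {c : ℝ | w c ∈ C} := hCclosed.preimage hwc
        have hsub : Set.Ioi (0 : ℝ) ⊆ {c : ℝ | w c ∈ C} := fun c hc => hwC c hc
        have h0c : (0 : ℝ) ∈ closure (Set.Ioi (0 : ℝ)) := by
          rw [closure_Ioi]; exact Set.self_mem_Ici
        have := closure_minimal hsub hcl h0c
        rw [← hw0]
        exact this
      intro a
      rcases le_or_gt 0 a with ha | ha
      · obtain ⟨x, hx, hxi⟩ := hpos i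
        have h1 := hsm (a / x i) (by positivity) _ (main x hx)
        rw [← Pi.single_smul, smul_eq_mul, div_mul_cancel₀ _ hxi.ne'] at h1
        exact h1
      · obtain ⟨x, hx, hxi⟩ := hneg i
        have h1 := hsm (a / x i) (div_nonneg_of_nonpos ha.le hxi.le) _ (main x hx)
        rw [← Pi.single_smul, smul_eq_mul, div_mul_cancel₀ _ hxi.ne] at h1
        exact h1
  have hall : ∀ x : Fin n → ℝ, x ∈ C := by
    intro x
    rw [← Finset.univ_sum_single x]
    exact C.sum_mem fun i _ => key i _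
  -- rounding
  have hnat : ∀ (m : ℕ), ∀ x ∈ S, (m : ℝ) • x ∈ S := by
    intro m x hx
    induction m with
    | zero => simpa using h0
    | succ m ih =>
      rw [Nat.cast_succ, add_smul, one_smul]
      exact hadd _ ih _ hx
  have hround : ∀ p ∈ K, ∃ M : ℝ, 0 ≤ M ∧ ∀ N : ℕ, ∃ q ∈ S, ‖q - (N : ℝ) • p‖ ≤ M := by
    intro p hp
    induction hp using Submodule.span_induction with
    | mem x hx => exact ⟨0, le_rfl, fun N => ⟨(N : ℝ) • x, hnat N x hx, by simp⟩⟩
    | zero => exact ⟨0, le_rfl, fun N => ⟨0, h0, by simp⟩⟩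
    | add x y _ _ hx hy =>
      obtain ⟨M1, hM1, h1⟩ := hx
      obtain ⟨M2, hM2, h2⟩ := hy
      refine ⟨M1 + M2, by positivity, fun N => ?_⟩
      obtain ⟨q1, hq1, h1'⟩ := h1 N
      obtain ⟨q2, hq2, h2'⟩ := h2 N
      refine ⟨q1 + q2, hadd _ hq1 _ hq2, ?_⟩
      calc ‖q1 + q2 - (N : ℝ) • (x + y)‖ = ‖(q1 - (N : ℝ) • x) + (q2 - (N : ℝ) • y)‖ := by
            congr 1; rw [smul_add]; abel
        _ ≤ ‖q1 - (N : ℝ) • x‖ + ‖q2 - (N : ℝ) • y‖ := norm_add_le _ _
        _ ≤ M1 + M2 := add_le_add h1' h2'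
    | smul a x _ hx =>
      obtain ⟨M, hM, h1⟩ := hx
      refine ⟨M + ‖x‖, by positivity, fun N => ?_⟩
      obtain ⟨q, hq, hq'⟩ := h1 ⌊(N : ℝ) * a⌋₊
      refine ⟨q, hq, ?_⟩
      have hx0 : (0 : ℝ) ≤ (N : ℝ) * a := by positivity
      have h2 : (⌊(N : ℝ) * a⌋₊ : ℝ) ≤ (N : ℝ) * a := Nat.floor_le hx0
      have h3 : (N : ℝ) * a < (⌊(N : ℝ) * a⌋₊ : ℝ) + 1 := Nat.lt_floor_add_one _
      have h4 : a • x = (a : ℝ) • x := rfl
      calc ‖q - (N : ℝ) • (a • x)‖
          = ‖(q - (⌊(N : ℝ) * a⌋₊ : ℝ) • x) + ((⌊(N : ℝ) * a⌋₊ : ℝ) - (N : ℝ) * a) • x‖ := by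
            congr 1
            rw [h4, smul_smul, sub_smul]
            abel
        _ ≤ ‖q - (⌊(N : ℝ) * a⌋₊ : ℝ) • x‖ + ‖((⌊(N : ℝ) * a⌋₊ : ℝ) - (N : ℝ) * a) • x‖ :=
            norm_add_le _ _
        _ ≤ M + 1 * ‖x‖ := by
            refine add_le_add hq' ?_
            rw [norm_smul]
            refine mul_le_mul_of_nonneg_right ?_ (norm_nonneg _)
            rw [Real.norm_eq_abs, abs_le]
            constructor <;> linarith
        _ = M + ‖x‖ := by rw [one_mul]
  obtain ⟨ρ, hρ, hball⟩ := Metric.mem_nhds_iff.mp hc0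
  have hmem : (-c0) ∈ closure (K : Set (Fin n → ℝ)) := hall (-c0)
  obtain ⟨p, hpK, hp⟩ := Metric.mem_closure_iff.mp hmem (ρ / 2) (by positivity)
  obtain ⟨M, hM, hq⟩ := hround p hpK
  obtain ⟨N, hN⟩ := exists_nat_gt (2 * M / ρ)
  have hN0 : (0 : ℝ) < N := lt_of_le_of_lt (by positivity) hN
  have hN1 : 1 ≤ N := by exact_mod_cast hN0
  obtain ⟨q, hqS, hq'⟩ := hq N
  have hNM : M < (N : ℝ) * (ρ / 2) := by
    rw [div_lt_iff₀ hρ] at hN
    linarith
  have hx : (-((N : ℝ)⁻¹ • q)) ∈ P := by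
    apply hball
    rw [Metric.mem_ball, dist_eq_norm]
    have h1 : -((N : ℝ)⁻¹ • q) - c0 = -((N : ℝ)⁻¹ • (q - (N : ℝ) • p)) - (p - (-c0)) := by
      rw [smul_sub, smul_smul, inv_mul_cancel₀ hN0.ne', one_smul]
      abel
    rw [h1]
    have hp' : ‖p - (-c0)‖ < ρ / 2 := by
      rw [← dist_eq_norm, dist_comm]; exact hp
    calc ‖-((N : ℝ)⁻¹ • (q - (N : ℝ) • p)) - (p - (-c0))‖
        ≤ ‖-((N : ℝ)⁻¹ • (q - (N : ℝ) • p))‖ + ‖p - (-c0)‖ := norm_sub_le _ _
      _ = (N : ℝ)⁻¹ * ‖q - (N : ℝ) • p‖ + ‖p - (-c0)‖ := by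
          rw [norm_neg, norm_smul, Real.norm_eq_abs, abs_of_pos (inv_pos.mpr hN0)]
      _ < ρ / 2 + ρ / 2 := by
          refine add_lt_add ?_ hp'
          rw [inv_mul_lt_iff₀ hN0]
          exact lt_of_le_of_lt hq' hNM
      _ = ρ := by ring
  have hPnat : ∀ m : ℕ, 1 ≤ m → ∀ x ∈ P, (m : ℝ) • x ∈ P := by
    intro m hm x hx
    obtain ⟨m', rfl⟩ := Nat.exists_eq_add_of_le hm
    rw [Nat.cast_add, add_smul, Nat.cast_one, one_smul]
    exact hPS x hx _ (hnat m' x (hP hx))
  have h2 := hPS _ (hPnat N hN1 _ hx) q hqS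
  have h3 : (N : ℝ) • -((N : ℝ)⁻¹ • q) + q = 0 := by
    rw [smul_neg, smul_smul, mul_inv_cancel₀ hN0.ne', one_smul]
    simp
  rw [h3] at h2
  exact h2

/-- the moment map has an interior point in the image of the positive vectors -/
theorem interior_point {n : ℕ} (y : Fin n → ℝ) (hy : ∀ i, y i ≠ 0) :
    ∃ c0 : Fin n → ℝ, (fun r : Fin n → ℝ => fun i : Fin n => ∑ a, r a ^ ((i : ℕ) + 2) * y i) ''
      {r | ∀ a, 0 < r a} ∈ 𝓝 c0 := by
  classical
  set f : (Fin n → ℝ) → (Fin n → ℝ) := fun r i => ∑ a, r a ^ ((i : ℕ) + 2) * y i with hf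
  let r0 : Fin n → ℝ := fun a => (a : ℝ) + 1
  let M : Matrix (Fin n) (Fin n) ℝ := Matrix.of fun i a =>
    (((i : ℕ) + 2 : ℕ) : ℝ) * r0 a ^ ((i : ℕ) + 1) * y i
  let f' : (Fin n → ℝ) →L[ℝ] (Fin n → ℝ) := ContinuousLinearMap.pi fun i =>
    ∑ a, (M i a) • ContinuousLinearMap.proj (R := ℝ) (φ := fun _ : Fin n => ℝ) a
  have hder : HasStrictFDerivAt f f' r0 := by
    rw [hasStrictFDerivAt_pi]
    intro i
    refine HasStrictFDerivAt.fun_sum fun a _ => ?_
    have h1 : HasStrictFDerivAt (fun r : Fin n → ℝ => r a)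
      (ContinuousLinearMap.proj (R := ℝ) (φ := fun _ : Fin n => ℝ) a) r0 :=
      (ContinuousLinearMap.proj (R := ℝ) (φ := fun _ : Fin n => ℝ) a).hasStrictFDerivAt
    have h2 : HasStrictDerivAt (fun x : ℝ => x ^ ((i : ℕ) + 2) * y i)
        ((((i : ℕ) + 2 : ℕ) : ℝ) * r0 a ^ ((i : ℕ) + 1) * y i) (r0 a) := by
      have := (hasStrictDerivAt_pow ((i : ℕ) + 2) (r0 a)).mul_const (y i)
      simpa using this
    exact h2.comp_hasStrictFDerivAt r0 h1
  have hdet : IsUnit M := by
    rw [Matrix.isUnit_iff_isUnit_det, isUnit_iff_ne_zero]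
    have hM : M = Matrix.diagonal (fun i : Fin n => (((i : ℕ) + 2 : ℕ) : ℝ) * y i) *
        (Matrix.vandermonde r0).transpose * Matrix.diagonal r0 := by
      ext i a
      rw [Matrix.mul_diagonal, Matrix.diagonal_mul, Matrix.transpose_apply,
        Matrix.vandermonde_apply]
      simp only [M, Matrix.of_apply]
      ring
    rw [hM, Matrix.det_mul, Matrix.det_mul, Matrix.det_diagonal, Matrix.det_diagonal,
      Matrix.det_transpose]
    refine mul_ne_zero (mul_ne_zero ?_ ?_) ?_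
    · exact Finset.prod_ne_zero_iff.mpr fun i _ => mul_ne_zero (by positivity) (hy i)
    · rw [Matrix.det_vandermonde_ne_zero_iff]
      intro a b hab
      simp only [r0] at hab
      have : (a : ℝ) = (b : ℝ) := by linarith
      exact Fin.ext (by exact_mod_cast this)
    · exact Finset.prod_ne_zero_iff.mpr fun i _ => by
        simp only [r0]; positivity
  have hsurj : f'.range = ⊤ := by
    rw [LinearMap.range_eq_top]
    intro w
    obtain ⟨x, hx⟩ := (Matrix.mulVec_surjective_iff_isUnit.mpr hdet) w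
    refine ⟨x, ?_⟩
    rw [← hx]
    funext i
    simp [f', Matrix.mulVec, dotProduct, smul_eq_mul]
  refine ⟨f r0, ?_⟩
  rw [← hder.map_nhds_eq_of_surj hsurj]
  refine Filter.image_mem_map ?_
  have hopen : IsOpen {r : Fin n → ℝ | ∀ a, 0 < r a} := by
    have : {r : Fin n → ℝ | ∀ a, 0 < r a} = ⋂ a, {r | 0 < r a} := by
      ext r; simp
    rw [this]
    exact isOpen_iInter_of_finite fun a => isOpen_lt continuous_const (continuous_apply a)
  refine hopen.mem_nhds ?_
  intro a
  simp only [r0]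
  positivity

namespace Law

/-- the vector of coefficients -/
noncomputable def kap (n : ℕ) (A : Law) : Fin n → ℝ := fun i => coeff ((i : ℕ) + 1) (ld A.ser)

theorem kap_add (n : ℕ) (A A' : Law) : kap n (A.add A') = kap n A + kap n A' := by
  funext i
  rw [Pi.add_apply, kap, kap, kap, ser_add, ld_mul _ _ A.const_ser A'.const_ser, map_add]

theorem kap_zero (n : ℕ) : kap n zero = 0 := by
  funext i
  rw [kap, ser_zero, ld_one]
  simp

theorem kap_scale (n : ℕ) (A : Law) (c : ℝ) (hc : 0 ≤ c) :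
    kap n (A.scale c hc) = fun i : Fin n => c ^ ((i : ℕ) + 2) * kap n A i := by
  funext i
  rw [kap, kap, ser_scale, ld_rescale _ A.const_ser]

theorem zero_add_ld (A A' : Law) : coeff 0 (ld (A.add A').ser) =
    coeff 0 (ld A.ser) + coeff 0 (ld A'.ser) := by
  rw [ser_add, ld_mul _ _ A.const_ser A'.const_ser, map_add]

/-- sums of scaled signs -/
theorem exists_signs (n : ℕ) {m : ℕ} (r : Fin m → ℝ) (hr : ∀ a, 0 < r a) :
    ∃ A : Law, (kap n A = fun i : Fin n => ∑ a, r a ^ ((i : ℕ) + 2) * kap n sign i) ∧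
      coeff 0 (ld A.ser) = - ∑ a, r a := by
  induction m with
  | zero =>
    refine ⟨zero, ?_, ?_⟩
    · rw [kap_zero]; funext i; simp
    · rw [ser_zero, ld_one]; simp
  | succ m ih =>
    obtain ⟨A, h1, h2⟩ := ih (fun a => r a.succ) (fun a => hr _)
    refine ⟨(sign.scale (r 0) (hr 0).le).add A, ?_, ?_⟩
    · rw [kap_add, kap_scale, h1]
      funext i
      rw [Pi.add_apply, Fin.sum_univ_succ]
    · rw [zero_add_ld, h2, Fin.sum_univ_succ, ser_scale, coeff_zero_ld _
        (const_rescale _ _ sign.const_ser), coeff_rescale, ser_sign, coeff_cser]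
      norm_num
      ring

end Law

open Law in
/-- a law with Gaussian moments up to order `2t` -/
theorem exists_gaussian_law (t : ℕ) : ∃ A : Law, coeff 0 (ld A.ser) < 0 ∧
    ∀ k, 1 ≤ k → k < t → coeff k (ld A.ser) = 0 := by
  rcases Nat.lt_or_ge t 2 with ht | ht
  · obtain ⟨A, -, h2⟩ := exists_signs 0 (m := 1) (fun _ => 1) (fun _ => one_pos)
    refine ⟨A, ?_, fun k h1 hk => by omega⟩
    rw [h2]; norm_num
  obtain ⟨n, rfl⟩ := Nat.exists_eq_add_of_le ht
  have hy : ∀ i : Fin (n + 1), kap (n + 1) sign i < 0 := by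
    intro i
    rw [kap, ser_sign]
    have := yc_pos ((i : ℕ) + 1)
    unfold yc at this
    linarith
  obtain ⟨c0, hc0⟩ := interior_point (kap (n + 1) sign) (fun i => (hy i).ne)
  have hmain := zero_mem_of_semigroup (S := Set.range (kap (n + 1)))
    (P := {x | ∃ A : Law, kap (n + 1) A = x ∧ coeff 0 (ld A.ser) < 0}) ⟨zero, kap_zero _⟩
    (by
      rintro _ ⟨A, rfl⟩ _ ⟨A', rfl⟩
      exact ⟨A.add A', kap_add _ _ _⟩)
    (by
      rintro c hc _ ⟨A, rfl⟩
      exact ⟨A.scale c hc.le, kap_scale _ _ _ _⟩)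
    (by
      intro i
      obtain ⟨A, hA⟩ := exists_pos ((i : ℕ) + 1) (by omega)
      exact ⟨_, ⟨A, rfl⟩, hA⟩)
    (fun i => ⟨_, ⟨sign, rfl⟩, hy i⟩)
    (by
      rintro _ ⟨A, rfl, -⟩
      exact ⟨A, rfl⟩)
    (by
      rintro _ ⟨A, rfl, hA⟩ _ ⟨A', rfl⟩
      refine ⟨A.add A', kap_add _ _ _, ?_⟩
      rw [zero_add_ld]
      have := ld_zero_nonpos A'
      linarith)
    c0
    (by
      refine Filter.mem_of_superset hc0 ?_
      rintro _ ⟨r, hr, rfl⟩
      obtain ⟨A, h1, h2⟩ := exists_signs (n + 1) r hr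
      refine ⟨A, h1, ?_⟩
      rw [h2, neg_lt_zero]
      exact Finset.sum_pos (fun a _ => hr a) Finset.univ_nonempty)
  obtain ⟨A, hA, hA0⟩ := hmain
  refine ⟨A, hA0, fun k hk1 hk2 => ?_⟩
  have := congrFun hA ⟨k - 1, by omega⟩
  rw [kap] at this
  simpa [Nat.sub_add_cancel hk1] using this

end Pool.Agent.A2B69
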