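import Pool.Agent.Lib.MP_a2be38_co_h69.OA

/-!
# Even moments of sign sums as coefficients of products of `cos √(2X)`
-/

set_option autoImplicit false

open Finset PowerSeries

namespace Pool.Agent.A2B69

/-- the power series `cos √(2 X)` -/
noncomputable def cser : PowerSeries ℝ := PowerSeries.mk fun k => (-2) ^ k / ((2 * k).factorial : ℝ)

theorem coeff_cser (k : ℕ) : coeff k cser = (-2) ^ k / ((2 * k).factorial : ℝ) := coeff_mk _ _

theorem coeff_prod_pi {I : Type} [Fintype I] [DecidableEq I] (f : I → PowerSeries ℝ) (t : ℕ) :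
    coeff t (∏ i, f i) = ∑ k ∈ piAntidiag (univ : Finset I) t, ∏ i, coeff (k i) (f i) := by
  rw [PowerSeries.coeff_prod]
  refine Finset.sum_nbij' (fun l => (l : I → ℕ)) (fun k => Finsupp.equivFunOnFinite.symm k)
    ?_ ?_ ?_ ?_ ?_
  · intro l hl
    rw [mem_piAntidiag]
    exact ⟨(mem_finsuppAntidiag.mp hl).1, fun i _ => Finset.mem_univ i⟩
  · intro k hk
    rw [mem_finsuppAntidiag]
    exact ⟨(mem_piAntidiag.mp hk).1, fun i _ => Finset.mem_univ i⟩
  · intro l _
    ext i
    rfl
  · intro k _
    rfl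
  · intro l _
    rfl

/-- even moments of a sum of signs -/
theorem sum_pow_two_mul {I Ω : Type} [Fintype I] [DecidableEq I] [Fintype Ω] {ε : I → Ω → ℝ}
    {r : ℕ} (h : IsOA ε r) (t : ℕ) (ht : 2 * t ≤ r) (a : I → ℝ) :
    ∑ ω, (∑ i, a i * ε i ω) ^ (2 * t) =
      (Fintype.card Ω : ℝ) * (((2 * t).factorial : ℝ) / (-2) ^ t) *
        coeff t (∏ i, rescale (a i ^ 2) cser) := by
  have h1 : ∀ ω, (∑ i, a i * ε i ω) ^ (2 * t) = ∑ k ∈ piAntidiag (univ : Finset I) (2 * t),
      ((Nat.multinomial univ k : ℝ) * ∏ i, a i ^ k i) * ∏ i, ε i ω ^ k i := by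
    intro ω
    rw [Finset.sum_pow_eq_sum_piAntidiag]
    refine Finset.sum_congr rfl fun k _ => ?_
    rw [mul_assoc, ← Finset.prod_mul_distrib]
    congr 1
    exact Finset.prod_congr rfl fun i _ => mul_pow _ _ _
  simp_rw [h1]
  rw [Finset.sum_comm]
  have h2 : ∀ k ∈ piAntidiag (univ : Finset I) (2 * t),
      ∑ ω, ((Nat.multinomial univ k : ℝ) * ∏ i, a i ^ k i) * ∏ i, ε i ω ^ k i =
      if (∀ i, 2 ∣ k i) then ((Nat.multinomial univ k : ℝ) * ∏ i, a i ^ k i) * Fintype.card Ω
        else 0 := by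
    intro k hk
    rw [← Finset.mul_sum, h.monomial univ k (by rw [(mem_piAntidiag.mp hk).1]; exact ht)]
    by_cases hev : ∀ i, 2 ∣ k i
    · rw [if_pos hev, if_pos (fun i _ => (even_iff_two_dvd).mpr (hev i))]
    · rw [if_neg hev, if_neg (fun h' => hev fun i => even_iff_two_dvd.mp (h' i (Finset.mem_univ i))),
        mul_zero]
  rw [Finset.sum_congr rfl h2, ← Finset.sum_filter,
    ← Finset.map_nsmul_piAntidiag_univ (ι := I) t (n := 2) two_ne_zero, Finset.sum_map,
    coeff_prod_pi, Finset.mul_sum]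
  refine Finset.sum_congr rfl fun k hk => ?_
  have hsum : ∑ i, k i = t := (mem_piAntidiag.mp hk).1
  simp only [Function.Embedding.coeFn_mk, Pi.smul_apply, smul_eq_mul]
  have h3 : (Nat.multinomial univ (2 • k) : ℝ) = ((2 * t).factorial : ℝ) /
      ∏ i, (((2 * k i).factorial : ℕ) : ℝ) := by
    rw [eq_div_iff (Finset.prod_ne_zero_iff.mpr fun i _ => by
      exact_mod_cast Nat.factorial_ne_zero _)]
    have h4 := Nat.multinomial_spec univ (2 • k)
    have h5 : ∑ i, (2 • k) i = 2 * t := by
      simp only [Pi.smul_apply, smul_eq_mul]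
      rw [← Finset.mul_sum, hsum]
    rw [h5] at h4
    rw [← h4]
    push_cast
    rw [mul_comm]
    simp
  have h6 : ∏ i, coeff (k i) (rescale (a i ^ 2) cser) =
      (-2) ^ t * (∏ i, a i ^ (2 * k i)) / ∏ i, (((2 * k i).factorial : ℕ) : ℝ) := by
    rw [← hsum, ← Finset.prod_pow_eq_pow_sum, ← Finset.prod_mul_distrib, ← Finset.prod_div_distrib]
    refine Finset.prod_congr rfl fun i _ => ?_
    rw [coeff_rescale, coeff_cser, ← pow_mul]
    ring
  rw [h3, h6]
  have h7 : ((-2 : ℝ)) ^ t ≠ 0 := pow_ne_zero _ (by norm_num)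
  have h8 : ∏ i, (((2 * k i).factorial : ℕ) : ℝ) ≠ 0 := Finset.prod_ne_zero_iff.mpr fun i _ => by
      exact_mod_cast Nat.factorial_ne_zero _
  field_simp

/-- the logarithmic derivative -/
noncomputable def ld (F : PowerSeries ℝ) : PowerSeries ℝ := derivative ℝ F * F⁻¹

theorem ld_mul_self (F : PowerSeries ℝ) (hF : constantCoeff F = 1) :
    ld F * F = derivative ℝ F := by
  rw [ld, mul_assoc, PowerSeries.inv_mul_cancel _ (by rw [hF]; exact one_ne_zero), mul_one]

theorem ld_unique (F G : PowerSeries ℝ) (hF : constantCoeff F = 1) (h : derivative ℝ F = G * F) :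
    ld F = G := by
  rw [ld, h, mul_assoc, PowerSeries.mul_inv_cancel _ (by rw [hF]; exact one_ne_zero), mul_one]

theorem ld_mul (F G : PowerSeries ℝ) (hF : constantCoeff F = 1) (hG : constantCoeff G = 1) :
    ld (F * G) = ld F + ld G := by
  apply ld_unique
  · rw [map_mul, hF, hG, one_mul]
  · rw [Derivation.leibniz, smul_eq_mul, smul_eq_mul, ← ld_mul_self F hF, ← ld_mul_self G hG]
    ring

theorem ld_one : ld 1 = 0 := by
  apply ld_unique
  · simp
  · simp

theorem ld_prod {I : Type} (S : Finset I) (F : I → PowerSeries ℝ)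
    (hF : ∀ i ∈ S, constantCoeff (F i) = 1) : ld (∏ i ∈ S, F i) = ∑ i ∈ S, ld (F i) := by
  classical
  induction S using Finset.induction_on with
  | empty => simpa using ld_one
  | insert a S ha ih =>
    rw [Finset.prod_insert ha, Finset.sum_insert ha, ld_mul _ _ (hF a (Finset.mem_insert_self a S)),
      ih fun i hi => hF i (Finset.mem_insert_of_mem hi)]
    rw [map_prod]
    exact Finset.prod_eq_one fun i hi => hF i (Finset.mem_insert_of_mem hi)

theorem ld_rescale (F : PowerSeries ℝ) (hF : constantCoeff F = 1) (c : ℝ) (k : ℕ) :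
    coeff k (ld (rescale c F)) = c ^ (k + 1) * coeff k (ld F) := by
  have h : ld (rescale c F) = C c * rescale c (ld F) := by
    apply ld_unique
    · rw [← coeff_zero_eq_constantCoeff_apply, coeff_rescale, pow_zero, one_mul,
        coeff_zero_eq_constantCoeff_apply, hF]
    · have h1 : derivative ℝ (rescale c F) = C c * rescale c (derivative ℝ F) := by
        ext n
        rw [coeff_derivative, coeff_rescale, coeff_C_mul, coeff_rescale, coeff_derivative]
        ring
      rw [h1, ← ld_mul_self F hF, map_mul]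
      ring
  rw [h, coeff_C_mul, coeff_rescale]
  ring

/-- two series with constant term one and the same logarithmic derivative up to order `t` -/
theorem coeff_of_ld {F : PowerSeries ℝ} (hF : constantCoeff F = 1) {c : ℝ} {t : ℕ}
    (h0 : 1 ≤ t → coeff 0 (ld F) = c) (h : ∀ k, 1 ≤ k → k < t → coeff k (ld F) = 0) :
    ∀ k ≤ t, coeff k F = c ^ k / (k.factorial : ℝ) := by
  intro k
  induction k with
  | zero => intro _; simp [hF]
  | succ k ih =>
    intro hk
    have h1 := congrArg (coeff k) (ld_mul_self F hF)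
    rw [coeff_derivative, coeff_mul, Finset.sum_eq_single (0, k)] at h1
    · rw [h0 (by omega), ih (by omega)] at h1
      have h2 : ((k : ℝ) + 1) ≠ 0 := by positivity
      have h3 : ((k.factorial : ℕ) : ℝ) ≠ 0 := by exact_mod_cast Nat.factorial_ne_zero k
      rw [Nat.factorial_succ]
      push_cast
      field_simp
      field_simp at h1
      rw [pow_succ]
      linarith
    · intro ij hij hne
      have hij' := Finset.HasAntidiagonal.mem_antidiagonal.mp hij
      have h3 : ij.1 ≠ 0 := by
        intro h3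
        apply hne
        rw [h3, zero_add] at hij'
        exact Prod.ext h3 hij'
      rw [h ij.1 (by omega) (by omega), zero_mul]
    · intro hne
      exact absurd (Finset.HasAntidiagonal.mem_antidiagonal.mpr (zero_add k)) hne

end Pool.Agent.A2B69
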